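import Pool.Agent.Lib.MP_241ca8_al.Lor

/-!
# MP_241ca8_al : crystallographic systems

`D` is crystallographic if `W` preserves a lattice `L`. All nonzero vectors of `L` have the same limit
directions, which are light-like.
-/

namespace Pool.Agent.Lib.MP_241ca8_al

open scoped LinearAlgebra.Projectivization Topology
open Filter

namespace CoxeterDatum

variable {S : Type} [Fintype S] [DecidableEq S] (D : CoxeterDatum S)

/-- `W` preserves the lattice `L` (a subgroup which has finitely many elements in every ball, and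
which spans `V`). -/
structure IsCryst (L : AddSubgroup (S → ℝ)) : Prop where
  fin : ∀ R : ℝ, {x : S → ℝ | x ∈ L ∧ ‖x‖ ≤ R}.Finite
  span : Submodule.span ℝ (L : Set (S → ℝ)) = ⊤
  refl : ∀ s, ∀ x ∈ L, D.simpleReflection s x ∈ L

/-- The system is irreducible. -/
def Irred : Prop := ∀ s t, Relation.ReflTransGen (fun a b => D.K a b ≠ 0) s t

variable {D} {L : AddSubgroup (S → ℝ)}

lemma IsCryst.W_mem (h : D.IsCryst L) {w : (S → ℝ) ≃ₗ[ℝ] (S → ℝ)} (hw : w ∈ D.W) {x : S → ℝ}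
    (hx : x ∈ L) : w x ∈ L :=
  (D.W_iff (fun x => x ∈ L) (fun s x hx => h.refl s x hx) hw x).1 hx

lemma IsCryst.exists_min (h : D.IsCryst L) : ∃ δ : ℝ, 0 < δ ∧ ∀ x ∈ L, x ≠ 0 → δ ≤ ‖x‖ := by
  have h1 := h.fin 1
  set F := h1.toFinset.filter (fun x => x ≠ 0) with hF
  by_cases hne : F.Nonempty
  · obtain ⟨x₀, hx₀, hmin⟩ := F.exists_min_image (fun x => ‖x‖) hne
    refine ⟨‖x₀‖, norm_pos_iff.2 (Finset.mem_filter.1 hx₀).2, ?_⟩
    intro x hx hx0
    by_cases hx1 : ‖x‖ ≤ 1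
    · exact hmin x (Finset.mem_filter.2 ⟨h1.mem_toFinset.2 ⟨hx, hx1⟩, hx0⟩)
    · have h2 := (h1.mem_toFinset.1 (Finset.mem_filter.1 hx₀).1).2
      linarith
  · refine ⟨1, one_pos, ?_⟩
    intro x hx hx0
    by_contra hcon
    push Not at hcon
    exact hne ⟨x, Finset.mem_filter.2 ⟨h1.mem_toFinset.2 ⟨hx, hcon.le⟩, hx0⟩⟩

/-- Multiples of the simple roots are in the lattice. -/
lemma IsCryst.exists_root (h : D.IsCryst L) :
    ∃ c : S → ℝ, (∀ s, c s ≠ 0) ∧ ∀ s, c s • simpleRoot s ∈ L := by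
  have key : ∀ s, ∃ c : ℝ, c ≠ 0 ∧ c • simpleRoot s ∈ L := by
    intro s
    obtain ⟨x, hx, hne⟩ : ∃ x ∈ L, D.B (simpleRoot s) x ≠ 0 := by
      by_contra hcon
      push Not at hcon
      have h1 : Submodule.span ℝ (L : Set (S → ℝ)) ≤ LinearMap.ker (D.B (simpleRoot s)) := by
        rw [Submodule.span_le]
        intro x hx
        exact hcon x hx
      rw [h.span] at h1
      have h2 : simpleRoot s ∈ LinearMap.ker (D.B (simpleRoot s)) := h1 Submodule.mem_top
      rw [LinearMap.mem_ker, D.B_self_root] at h2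
      exact one_ne_zero h2
    refine ⟨2 * D.B (simpleRoot s) x, mul_ne_zero two_ne_zero hne, ?_⟩
    have h1 := L.sub_mem hx (h.refl s x hx)
    rwa [D.refl_apply', sub_sub_cancel] at h1
  choose c hc hcL using key
  exact ⟨c, hc, hcL⟩

/-! ### Accumulation points and sequences -/

omit [DecidableEq S] in
/-- A point of the derived set of `A` is the limit of a sequence of representatives. -/
lemma exists_seq {A : Set (ℙ ℝ (S → ℝ))} {y : S → ℝ} (hy : y ≠ 0)
    (h : Projectivization.mk ℝ y hy ∈ derivedSet A) :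
    ∃ (u : ℕ → (S → ℝ)) (hu : ∀ n, u n ≠ 0), Tendsto u atTop (𝓝 y) ∧
      ∀ n, Projectivization.mk ℝ (u n) (hu n) ∈ A ∧
        Projectivization.mk ℝ (u n) (hu n) ≠ Projectivization.mk ℝ y hy := by
  have key : ∀ n : ℕ, ∃ (v : S → ℝ) (hv : v ≠ 0), ‖v - y‖ < 1 / ((n : ℝ) + 1) ∧
      Projectivization.mk ℝ v hv ∈ A ∧ Projectivization.mk ℝ v hv ≠ Projectivization.mk ℝ y hy := by
    intro n
    have hε : (0 : ℝ) < 1 / ((n : ℝ) + 1) := by positivity
    set ε : ℝ := 1 / ((n : ℝ) + 1)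
    set U : Set (ℙ ℝ (S → ℝ)) :=
      {p | ∃ (v : S → ℝ) (hv : v ≠ 0), p = Projectivization.mk ℝ v hv ∧ ‖v - y‖ < ε} with hU
    have hUopen : IsOpen U := by
      rw [isOpen_iff]
      have h1 : {v : S → ℝ | ∃ hv : v ≠ 0, Projectivization.mk ℝ v hv ∈ U} =
          ⋃ a : {a : ℝ // a ≠ 0}, {v : S → ℝ | v ≠ 0 ∧ ‖a.1 • v - y‖ < ε} := by
        ext v
        simp only [Set.mem_iUnion]
        constructor
        · rintro ⟨hv, w, hw, hvw, hlt⟩
          rw [Projectivization.mk_eq_mk_iff'] at hvw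
          obtain ⟨a, rfl⟩ := hvw
          have ha : a ≠ 0 := by
            rintro rfl
            exact hv (zero_smul _ _)
          refine ⟨⟨a⁻¹, inv_ne_zero ha⟩, hv, ?_⟩
          show ‖a⁻¹ • (a • w) - y‖ < ε
          rw [smul_smul, inv_mul_cancel₀ ha, one_smul]
          exact hlt
        · rintro ⟨⟨a, ha⟩, hv, hlt⟩
          refine ⟨hv, a • v, smul_ne_zero ha hv, ?_, hlt⟩
          rw [Projectivization.mk_eq_mk_iff']
          exact ⟨a⁻¹, by rw [smul_smul, inv_mul_cancel₀ ha, one_smul]⟩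
      rw [h1]
      refine isOpen_iUnion fun a => ?_
      refine IsOpen.inter isOpen_ne ?_
      exact isOpen_lt ((continuous_id.const_smul a.1).sub continuous_const).norm continuous_const
    have hyU : Projectivization.mk ℝ y hy ∈ U := ⟨y, hy, rfl, by simpa using hε⟩
    rw [mem_derivedSet, accPt_iff_nhds] at h
    obtain ⟨p, ⟨⟨v, hv, rfl, hlt⟩, hpA⟩, hpy⟩ := h U (hUopen.mem_nhds hyU)
    exact ⟨v, hv, hlt, hpA, hpy⟩
  choose u hu h1 h2 using key
  refine ⟨u, hu, ?_, h2⟩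
  rw [tendsto_iff_norm_sub_tendsto_zero]
  exact squeeze_zero (fun n => norm_nonneg _) (fun n => (h1 n).le)
    tendsto_one_div_add_atTop_nhds_zero_nat

omit [Fintype S] [DecidableEq S] in
lemma smul_mk (w : (S → ℝ) ≃ₗ[ℝ] (S → ℝ)) {x : S → ℝ} (hx : x ≠ 0) :
    w • Projectivization.mk ℝ x hx =
      Projectivization.mk ℝ (w x) ((LinearEquiv.map_ne_zero_iff w).2 hx) := rfl

omit [Fintype S] [DecidableEq S] in
lemma mk_smul {v : S → ℝ} (hv : v ≠ 0) {a : ℝ} (ha : a ≠ 0) :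
    Projectivization.mk ℝ (a • v) (smul_ne_zero ha hv) = Projectivization.mk ℝ v hv := by
  rw [Projectivization.mk_eq_mk_iff']
  exact ⟨a, rfl⟩

/-- `SEQ`: limit directions of a lattice vector. -/
lemma IsCryst.seq (h : D.IsCryst L) {x : S → ℝ} (hx : x ∈ L) (hx0 : x ≠ 0) {y : S → ℝ}
    (hy : y ≠ 0)
    (hacc : Projectivization.mk ℝ y hy ∈ D.limitDirections (Projectivization.mk ℝ x hx0)) :
    ∃ (w : ℕ → ((S → ℝ) ≃ₗ[ℝ] (S → ℝ))) (c : ℕ → ℝ), (∀ n, w n ∈ D.W) ∧ (∀ n, c n ≠ 0) ∧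
      Tendsto c atTop (𝓝 0) ∧ Tendsto (fun n => c n • w n x) atTop (𝓝 y) := by
  obtain ⟨u, hu, hlim, hmem⟩ := exists_seq hy hacc
  have h1 : ∀ n, ∃ (w : (S → ℝ) ≃ₗ[ℝ] (S → ℝ)) (c : ℝ), w ∈ D.W ∧ c ≠ 0 ∧ u n = c • w x := by
    intro n
    obtain ⟨⟨⟨w, hw⟩, hwx⟩, -⟩ := hmem n
    have h2 : w • Projectivization.mk ℝ x hx0 = Projectivization.mk ℝ (u n) (hu n) := hwx
    rw [smul_mk, eq_comm, Projectivization.mk_eq_mk_iff'] at h2
    obtain ⟨c, hc⟩ := h2
    refine ⟨w, c, hw, ?_, hc.symm⟩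
    rintro rfl
    rw [zero_smul] at hc
    exact hu n hc.symm
  choose w c hw hc hwc using h1
  refine ⟨w, c, hw, hc, ?_, ?_⟩
  · rw [Metric.tendsto_atTop]
    intro ε hε
    -- a bound of the sequence
    obtain ⟨M, hM⟩ : ∃ M, ∀ n, ‖u n‖ ≤ M := by
      have := (Metric.isBounded_range_of_tendsto u hlim).exists_norm_le
      obtain ⟨M, hM⟩ := this
      exact ⟨M, fun n => hM _ ⟨n, rfl⟩⟩
    classical
    set F : Set (ℙ ℝ (S → ℝ)) :=
      (fun v : S → ℝ => if hv : v ≠ 0 then Projectivization.mk ℝ v hv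
        else Projectivization.mk ℝ y hy) '' {v : S → ℝ | v ∈ L ∧ ‖v‖ ≤ M / ε} with hF
    have hFfin : F.Finite := (h.fin _).image _
    have hF' : (F \ {Projectivization.mk ℝ y hy}).Finite := hFfin.subset Set.sdiff_subset
    have h3 : (F \ {Projectivization.mk ℝ y hy})ᶜ ∈ 𝓝 (Projectivization.mk ℝ y hy) :=
      hF'.isClosed.isOpen_compl.mem_nhds (fun h4 => h4.2 rfl)
    have h4 := (tendsto_mk hu hy hlim).eventually_mem h3
    obtain ⟨N, hN⟩ := eventually_atTop.1 h4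
    refine ⟨N, fun n hn => ?_⟩
    rw [dist_zero_right, Real.norm_eq_abs]
    by_contra hcon
    push Not at hcon
    apply hN n hn
    refine ⟨?_, (hmem n).2⟩
    have hwx : w n x ≠ 0 := (LinearEquiv.map_ne_zero_iff (w n)).2 hx0
    refine ⟨w n x, ⟨h.W_mem (hw n) hx, ?_⟩, ?_⟩
    · rw [le_div_iff₀ hε]
      calc ‖w n x‖ * ε ≤ ‖w n x‖ * |c n| := mul_le_mul_of_nonneg_left hcon (norm_nonneg _)
        _ = ‖u n‖ := by rw [hwc n, norm_smul, Real.norm_eq_abs, mul_comm]
        _ ≤ M := hM n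
    · show (if hv : w n x ≠ 0 then Projectivization.mk ℝ (w n x) hv
        else Projectivization.mk ℝ y hy) = _
      rw [dif_pos hwx, eq_comm, Projectivization.mk_eq_mk_iff']
      exact ⟨c n, (hwc n).symm⟩
  · exact hlim.congr fun n => hwc n

/-- Limit directions of lattice vectors are light-like. -/
lemma IsCryst.light (h : D.IsCryst L) {x : S → ℝ} (hx : x ∈ L) (hx0 : x ≠ 0) {y : S → ℝ}
    (hy : y ≠ 0)
    (hacc : Projectivization.mk ℝ y hy ∈ D.limitDirections (Projectivization.mk ℝ x hx0)) :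
    D.B y y = 0 := by
  obtain ⟨w, c, hw, -, hc0, hlim⟩ := h.seq hx hx0 hy hacc
  have hcont : Continuous fun v : S → ℝ => D.B v v := by
    simp only [D.B_apply]
    fun_prop
  have h1 : Tendsto (fun n => D.B (c n • w n x) (c n • w n x)) atTop (𝓝 (D.B y y)) :=
    (hcont.tendsto y).comp hlim
  have h2 : ∀ n, D.B (c n • w n x) (c n • w n x) = c n * (c n * D.B x x) := by
    intro n
    rw [map_smul, map_smul, LinearMap.smul_apply, D.B_W (hw n)]
    rfl
  simp only [h2] at h1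
  have h3 : Tendsto (fun n => c n * (c n * D.B x x)) atTop (𝓝 (0 * (0 * D.B x x))) :=
    hc0.mul (hc0.mul_const _)
  rw [zero_mul] at h3
  exact tendsto_nhds_unique h1 h3

/-- `CONV`: converse of `seq`. -/
lemma IsCryst.conv (h : D.IsCryst L) {x : S → ℝ} (hx : x ∈ L) (hx0 : x ≠ 0) {y : S → ℝ}
    (hy : y ≠ 0) {w : ℕ → ((S → ℝ) ≃ₗ[ℝ] (S → ℝ))} {c : ℕ → ℝ} (hw : ∀ n, w n ∈ D.W)
    (hc : ∀ n, c n ≠ 0) (hc0 : Tendsto c atTop (𝓝 0))
    (hlim : Tendsto (fun n => c n • w n x) atTop (𝓝 y)) :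
    Projectivization.mk ℝ y hy ∈ D.limitDirections (Projectivization.mk ℝ x hx0) := by
  obtain ⟨δ, hδ, hmin⟩ := h.exists_min
  have hwx : ∀ n, w n x ≠ 0 := fun n => (LinearEquiv.map_ne_zero_iff (w n)).2 hx0
  have hne : ∀ n, c n • w n x ≠ 0 := fun n => smul_ne_zero (hc n) (hwx n)
  have hmem : ∀ n, Projectivization.mk ℝ (c n • w n x) (hne n) ∈
      MulAction.orbit D.W (Projectivization.mk ℝ x hx0) := by
    intro n
    refine ⟨⟨w n, hw n⟩, ?_⟩
    show w n • Projectivization.mk ℝ x hx0 = _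
    rw [smul_mk, mk_smul (hwx n) (hc n)]
  -- eventually the points differ from the limit
  have hev : ∀ᶠ n in atTop, Projectivization.mk ℝ (c n • w n x) (hne n) ≠
      Projectivization.mk ℝ y hy := by
    by_cases hex : ∃ n₀, Projectivization.mk ℝ (c n₀ • w n₀ x) (hne n₀) =
        Projectivization.mk ℝ y hy
    · obtain ⟨n₀, hn₀⟩ := hex
      rw [mk_smul (hwx n₀) (hc n₀), Projectivization.mk_eq_mk_iff'] at hn₀
      obtain ⟨t₀, ht₀⟩ := hn₀
      have ht₀0 : t₀ ≠ 0 := by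
        rintro rfl
        rw [zero_smul] at ht₀
        exact hwx n₀ ht₀.symm
      -- `‖w n x‖ → ∞`
      have hbig : Tendsto (fun n => ‖w n x‖) atTop atTop := by
        have h1 : Tendsto (fun n => ‖c n • w n x‖) atTop (𝓝 ‖y‖) := hlim.norm
        have h2 : Tendsto (fun n => |c n|⁻¹) atTop atTop := by
          apply Tendsto.inv_tendsto_nhdsGT_zero
          rw [tendsto_nhdsWithin_iff]
          refine ⟨?_, Eventually.of_forall fun n => abs_pos.2 (hc n)⟩
          simpa using hc0.abs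
        have h3 := h1.pos_mul_atTop (norm_pos_iff.2 hy) h2
        refine h3.congr fun n => ?_
        rw [norm_smul, Real.norm_eq_abs]
        have := abs_pos.2 (hc n)
        field_simp
      have h4 := hbig.eventually_gt_atTop (‖w n₀ x‖ * ‖x‖ / δ)
      filter_upwards [h4] with n hn heq
      rw [mk_smul (hwx n) (hc n), Projectivization.mk_eq_mk_iff'] at heq
      obtain ⟨t, ht⟩ := heq
      have ht0 : t ≠ 0 := by
        rintro rfl
        rw [zero_smul] at ht
        exact hwx n ht.symm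
      -- `w n⁻¹ (w n₀ x) = (t₀ / t) x`
      have h5 : (w n)⁻¹ (w n₀ x) = (t₀ / t) • x := by
        have h6 : w n₀ x = (t₀ / t) • w n x := by
          rw [← ht, ← ht₀, smul_smul]
          congr 1
          field_simp
        rw [h6, map_smul]
        congr 1
        exact (w n).symm_apply_apply x
      have h6 : (t₀ / t) • x ∈ L := by
        rw [← h5]
        exact h.W_mem (D.W.inv_mem (hw n)) (h.W_mem (hw n₀) hx)
      have h7 := hmin _ h6 (smul_ne_zero (div_ne_zero ht₀0 ht0) hx0)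
      rw [norm_smul, norm_div, Real.norm_eq_abs, Real.norm_eq_abs] at h7
      have h8 : ‖w n x‖ = |t| * ‖y‖ := by rw [← ht, norm_smul, Real.norm_eq_abs]
      have h9 : ‖w n₀ x‖ = |t₀| * ‖y‖ := by rw [← ht₀, norm_smul, Real.norm_eq_abs]
      rw [h8, h9] at hn
      have hy' : 0 < ‖y‖ := norm_pos_iff.2 hy
      have ht' : 0 < |t| := abs_pos.2 ht0
      rw [div_lt_iff₀ hδ] at hn
      have h10 : δ * |t| ≤ |t₀| * ‖x‖ := by
        calc δ * |t| ≤ (|t₀| / |t| * ‖x‖) * |t| := mul_le_mul_of_nonneg_right h7 ht'.le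
          _ = |t₀| * ‖x‖ := by field_simp
      nlinarith
    · push Not at hex
      exact Eventually.of_forall hex
  obtain ⟨N, hN⟩ := eventually_atTop.1 hev
  refine accPt_of_seq (fun n => Projectivization.mk ℝ (c (n + N) • w (n + N) x) (hne (n + N)))
    (fun n => hmem _) (fun n => hN _ (Nat.le_add_left _ _)) ?_
  exact (tendsto_mk hne hy hlim).comp (tendsto_add_atTop_nat N)

end CoxeterDatum

end Pool.Agent.Lib.MP_241ca8_al
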