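import Pool.Agent.Lib.MP_241ca8_al.Cryst

/-!
# MP_241ca8_al : crystallographic systems, the limit directions of the lattice vectors
-/

namespace Pool.Agent.Lib.MP_241ca8_al

open scoped LinearAlgebra.Projectivization Topology
open Filter

namespace CoxeterDatum

variable {S : Type} [Fintype S] [DecidableEq S] {D : CoxeterDatum S}
variable {L : AddSubgroup (S → ℝ)} {e : (S → ℝ) ≃ₗ[ℝ] (S → ℝ)} {s₀ : S}

/-- The orbit of a nonzero vector spans `V`. -/
lemma span_orbit (h : D.IsCoord e s₀) (hirr : D.Irred) {x : S → ℝ} (hx : x ≠ 0) :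
    Submodule.span ℝ {v | ∃ w ∈ D.W, v = w x} = ⊤ := by
  set U := Submodule.span ℝ {v | ∃ w ∈ D.W, v = w x} with hU
  have hxU : x ∈ U := Submodule.subset_span ⟨1, D.W.one_mem, rfl⟩
  have hinv : ∀ s, ∀ u ∈ U, D.simpleReflection s u ∈ U := by
    intro s u hu
    induction hu using Submodule.span_induction with
    | mem v hv =>
      obtain ⟨w, hw, rfl⟩ := hv
      exact Submodule.subset_span ⟨D.simpleReflection s * w,
        D.W.mul_mem (simpleReflection_mem D s) hw, rfl⟩
    | zero => rw [map_zero]; exact U.zero_mem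
    | add a b _ _ ha hb => rw [map_add]; exact U.add_mem ha hb
    | smul c a _ ha => rw [map_smul]; exact U.smul_mem c ha
  have hroot : ∀ s, ∀ u ∈ U, D.B (simpleRoot s) u ≠ 0 → simpleRoot s ∈ U := by
    intro s u hu hne
    have h1 := U.sub_mem hu (hinv s u hu)
    rw [D.refl_apply', sub_sub_cancel] at h1
    exact (U.smul_mem_iff (mul_ne_zero two_ne_zero hne)).1 h1
  obtain ⟨s, hs⟩ : ∃ s, D.B (simpleRoot s) x ≠ 0 := by
    by_contra hcon
    push Not at hcon
    exact hx (h.nondeg hcon)
  have h1 : simpleRoot s ∈ U := hroot s x hxU hs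
  have h2 : ∀ t, simpleRoot t ∈ U := by
    intro t
    induction hirr s t with
    | refl => exact h1
    | tail _ hbc ih =>
      refine hroot _ _ ih ?_
      rw [D.B_simpleRoot, D.symm]
      exact hbc
  rw [eq_top_iff]
  intro y _
  have h3 : y = ∑ s, y s • simpleRoot s := by
    funext t
    simp [simpleRoot, Finset.sum_apply, Pi.single_apply]
  rw [h3]
  exact U.sum_mem fun s _ => U.smul_mem _ (h2 s)

/-- Lattice vectors have the same limit directions. -/
lemma IsCryst.mono (h : D.IsCryst L) (hc : D.IsCoord e s₀) (hirr : D.Irred) {x x' : S → ℝ}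
    (hx : x ∈ L) (hx0 : x ≠ 0) (hx' : x' ∈ L) (hx0' : x' ≠ 0) :
    D.limitDirections (Projectivization.mk ℝ x hx0) ⊆
      D.limitDirections (Projectivization.mk ℝ x' hx0') := by
  intro p hp
  induction p using Projectivization.ind with
  | h y hy =>
    have hyy := h.light hx hx0 hy hp
    obtain ⟨w, c, hw, hc1, hc0, hlim⟩ := h.seq hx hx0 hy hp
    -- a vector of the orbit of `x'` with unbounded images
    obtain ⟨g, hg, hunb⟩ : ∃ g ∈ D.W, ∀ C : ℝ, ∃ n, C < ‖w n (g x')‖ := by
      by_contra hcon
      push Not at hcon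
      let Bd : Submodule ℝ (S → ℝ) :=
        { carrier := {v | ∃ C : ℝ, ∀ n, ‖w n v‖ ≤ C}
          zero_mem' := ⟨0, fun n => by simp⟩
          add_mem' := by
            rintro a b ⟨C, hC⟩ ⟨C', hC'⟩
            refine ⟨C + C', fun n => ?_⟩
            rw [map_add]
            exact (norm_add_le _ _).trans (add_le_add (hC n) (hC' n))
          smul_mem' := by
            rintro a b ⟨C, hC⟩
            refine ⟨|a| * C, fun n => ?_⟩
            rw [map_smul, norm_smul, Real.norm_eq_abs]
            exact mul_le_mul_of_nonneg_left (hC n) (abs_nonneg a) }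
      have h1 : Submodule.span ℝ {v | ∃ w ∈ D.W, v = w x'} ≤ Bd := by
        rw [Submodule.span_le]
        rintro v ⟨g, hg, rfl⟩
        exact hcon g hg
      rw [span_orbit hc hirr hx0'] at h1
      obtain ⟨C, hC⟩ : x ∈ Bd := h1 Submodule.mem_top
      have h2 : Tendsto (fun n => c n • w n x) atTop (𝓝 0) := by
        rw [tendsto_zero_iff_norm_tendsto_zero]
        have h3 : Tendsto (fun n => |c n| * C) atTop (𝓝 0) := by
          have := (hc0.abs).mul_const C
          simpa using this
        refine squeeze_zero (fun n => norm_nonneg _) (fun n => ?_) h3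
        rw [norm_smul, Real.norm_eq_abs]
        exact mul_le_mul_of_nonneg_left (hC n) (abs_nonneg _)
      exact hy (tendsto_nhds_unique hlim h2)
    set x'' := g x' with hx''
    have hx''L : x'' ∈ L := h.W_mem hg hx'
    have hx''0 : x'' ≠ 0 := (LinearEquiv.map_ne_zero_iff g).2 hx0'
    -- a subsequence along which the norms tend to infinity
    obtain ⟨φ, hφ, hφn⟩ : ∃ φ : ℕ → ℕ, StrictMono φ ∧ ∀ n : ℕ, (n : ℝ) < ‖w (φ n) x''‖ := by
      refine extraction_forall_of_frequently (P := fun n k => (n : ℝ) < ‖w k x''‖) ?_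
      intro k
      rw [frequently_atTop]
      intro a
      by_contra hcon
      push Not at hcon
      obtain ⟨n, hn⟩ := hunb (max k (∑ i ∈ Finset.range a, ‖w i x''‖))
      by_cases hna : a ≤ n
      · have := hcon n hna
        have h2 := le_max_left (k : ℝ) (∑ i ∈ Finset.range a, ‖w i x''‖)
        linarith
      · push Not at hna
        have h1 : ‖w n x''‖ ≤ ∑ i ∈ Finset.range a, ‖w i x''‖ :=
          Finset.single_le_sum (f := fun i => ‖w i x''‖) (fun i _ => norm_nonneg _)
            (Finset.mem_range.2 hna)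
        have h2 := le_max_right (k : ℝ) (∑ i ∈ Finset.range a, ‖w i x''‖)
        linarith
    have hnz : ∀ n, ‖w (φ n) x''‖ ≠ 0 := fun n =>
      (lt_of_le_of_lt (Nat.cast_nonneg n) (hφn n)).ne'
    -- compactness
    obtain ⟨z, hz, ψ, hψ, hzlim⟩ :=
      (isCompact_sphere (0 : S → ℝ) 1).tendsto_subseq
        (x := fun n => ‖w (φ n) x''‖⁻¹ • w (φ n) x'') (fun n => by
          rw [mem_sphere_zero_iff_norm, norm_smul, norm_inv, norm_norm]
          exact inv_mul_cancel₀ (hnz n))
    have hz0 : z ≠ 0 := by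
      rintro rfl
      rw [mem_sphere_zero_iff_norm, norm_zero] at hz
      exact zero_ne_one hz
    set c' : ℕ → ℝ := fun n => ‖w (φ (ψ n)) x''‖⁻¹ with hc'
    have hc'0 : Tendsto c' atTop (𝓝 0) := by
      apply Tendsto.inv_tendsto_atTop
      apply tendsto_atTop_mono (f := fun n => ((ψ n : ℕ) : ℝ)) (fun n => (hφn (ψ n)).le)
      exact tendsto_natCast_atTop_atTop.comp hψ.tendsto_atTop
    have hzlim' : Tendsto (fun n => c' n • w (φ (ψ n)) x'') atTop (𝓝 z) := hzlim
    have hcont : Continuous fun v : S → ℝ => D.B v v := by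
      simp only [D.B_apply]
      fun_prop
    have hcont2 : Continuous fun v : (S → ℝ) × (S → ℝ) => D.B v.1 v.2 := by
      simp only [D.B_apply]
      fun_prop
    have hzz : D.B z z = 0 := by
      have h1 := (hcont.tendsto z).comp hzlim'
      have h2 : ∀ n, ((fun v : S → ℝ => D.B v v) ∘ fun n => c' n • w (φ (ψ n)) x'') n =
          c' n * (c' n * D.B x'' x'') := by
        intro n
        show D.B (c' n • w (φ (ψ n)) x'') (c' n • w (φ (ψ n)) x'') = _
        rw [map_smul, map_smul, LinearMap.smul_apply, D.B_W (hw _)]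
        rfl
      have h3 : Tendsto (fun n => c' n * (c' n * D.B x'' x'')) atTop
          (𝓝 (0 * (0 * D.B x'' x''))) := hc'0.mul (hc'0.mul_const _)
      rw [zero_mul] at h3
      exact tendsto_nhds_unique (h1.congr h2) h3
    have hsub : Tendsto (fun n => φ (ψ n)) atTop atTop := (hφ.comp hψ).tendsto_atTop
    have hyz : D.B y z = 0 := by
      have h1 : Tendsto (fun n => (c (φ (ψ n)) • w (φ (ψ n)) x, c' n • w (φ (ψ n)) x'')) atTop
          (𝓝 (y, z)) := (hlim.comp hsub).prodMk_nhds hzlim'
      have h2 := (hcont2.tendsto (y, z)).comp h1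
      have h3 : ∀ n, ((fun v : (S → ℝ) × (S → ℝ) => D.B v.1 v.2) ∘
          fun n => (c (φ (ψ n)) • w (φ (ψ n)) x, c' n • w (φ (ψ n)) x'')) n =
          c' n * (c (φ (ψ n)) * D.B x x'') := by
        intro n
        show D.B (c (φ (ψ n)) • w (φ (ψ n)) x) (c' n • w (φ (ψ n)) x'') = _
        rw [map_smul, map_smul, LinearMap.smul_apply, D.B_W (hw _)]
        rfl
      have h4 : Tendsto (fun n => c' n * (c (φ (ψ n)) * D.B x x'')) atTop
          (𝓝 (0 * (0 * D.B x x''))) := hc'0.mul ((hc0.comp hsub).mul_const _)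
      rw [zero_mul] at h4
      exact tendsto_nhds_unique (h2.congr h3) h4
    obtain ⟨t, ht⟩ := hc.light hyy hzz hyz hy
    have ht0 : t ≠ 0 := by
      rintro rfl
      rw [zero_smul] at ht
      exact hz0 ht
    have hfin := h.conv hx''L hx''0 hy (w := fun n => w (φ (ψ n))) (c := fun n => t⁻¹ * c' n)
      (fun n => hw _) (fun n => mul_ne_zero (inv_ne_zero ht0) (inv_ne_zero (hnz _)))
      (by simpa using hc'0.const_mul t⁻¹) (by
        have h1 := hzlim'.const_smul t⁻¹
        rw [ht, smul_smul, inv_mul_cancel₀ ht0, one_smul] at h1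
        refine h1.congr fun n => ?_
        rw [smul_smul])
    have horb : MulAction.orbit D.W (Projectivization.mk ℝ x'' hx''0) =
        MulAction.orbit D.W (Projectivization.mk ℝ x' hx0') := by
      have h1 : Projectivization.mk ℝ x'' hx''0 = (⟨g, hg⟩ : D.W) • Projectivization.mk ℝ x' hx0' :=
        rfl
      rw [h1]
      exact MulAction.orbit_smul _ _
    rw [limitDirections, ← horb]
    exact hfin

end CoxeterDatum

end Pool.Agent.Lib.MP_241ca8_al
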