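import Pool.Agent.Lib.MP_241ca8_al.Cryst2

/-!
# MP_241ca8_al : crystallographic Lorentzian systems, the catchment set is dense and not closed
-/

namespace Pool.Agent.Lib.MP_241ca8_al

open scoped LinearAlgebra.Projectivization Topology
open Filter

namespace CoxeterDatum

variable {S : Type} [Fintype S] [DecidableEq S] {D : CoxeterDatum S}
variable {L : AddSubgroup (S → ℝ)} {e : (S → ℝ) ≃ₗ[ℝ] (S → ℝ)} {s₀ : S}

lemma projRoots_eq : D.projRoots = ⋃ s ∈ (Finset.univ : Finset S),
    MulAction.orbit D.W (Projectivization.mk ℝ (simpleRoot s) (simpleRoot_ne_zero s)) := by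
  ext p
  simp only [projRoots, Set.mem_iUnion, Finset.mem_univ, exists_true_left]
  constructor
  · rintro ⟨w, hw, s, rfl⟩
    exact ⟨s, ⟨w, hw⟩, rfl⟩
  · rintro ⟨s, ⟨w, hw⟩, rfl⟩
    exact ⟨w, hw, s, rfl⟩

lemma derivedSet_biUnion {X ι : Type*} [TopologicalSpace X] [DecidableEq ι] (T : Finset ι)
    (A : ι → Set X) : derivedSet (⋃ s ∈ T, A s) = ⋃ s ∈ T, derivedSet (A s) := by
  induction T using Finset.induction_on with
  | empty =>
    ext x
    simp [mem_derivedSet, AccPt]
  | insert a T _ ih => rw [Finset.set_biUnion_insert, Finset.set_biUnion_insert,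
      derivedSet_union, ih]

/-- `E_x = E_Φ` for the lattice vectors. -/
lemma IsCryst.mem_catchment (h : D.IsCryst L) (hc : D.IsCoord e s₀) (hirr : D.Irred) {x : S → ℝ}
    (hx : x ∈ L) (hx0 : x ≠ 0) : Projectivization.mk ℝ x hx0 ∈ D.catchment := by
  obtain ⟨c, hc0, hcL⟩ := h.exists_root
  have h1 : ∀ s, D.limitDirections (Projectivization.mk ℝ (simpleRoot s) (simpleRoot_ne_zero s)) =
      D.limitDirections (Projectivization.mk ℝ x hx0) := by
    intro s
    have h2 : Projectivization.mk ℝ (simpleRoot s) (simpleRoot_ne_zero s) =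
        Projectivization.mk ℝ (c s • simpleRoot s)
          (smul_ne_zero (hc0 s) (simpleRoot_ne_zero s)) :=
      (mk_smul (simpleRoot_ne_zero s) (hc0 s)).symm
    rw [h2]
    exact Set.Subset.antisymm (h.mono hc hirr (hcL s) _ hx hx0)
      (h.mono hc hirr hx hx0 (hcL s) _)
  show D.limitDirections _ = D.limitRoots
  rw [limitRoots, projRoots_eq, derivedSet_biUnion]
  have h3 : ∀ s, derivedSet (MulAction.orbit D.W
      (Projectivization.mk ℝ (simpleRoot s) (simpleRoot_ne_zero s))) =
      D.limitDirections (Projectivization.mk ℝ x hx0) := h1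
  simp only [h3]
  ext p
  simp only [Set.mem_iUnion, Finset.mem_univ, exists_true_left]
  exact ⟨fun hp => ⟨s₀, hp⟩, fun ⟨_, hp⟩ => hp⟩

/-- Limit roots are light-like. -/
lemma IsCryst.limitRoots_light (h : D.IsCryst L) (hc : D.IsCoord e s₀) (hirr : D.Irred)
    {y : S → ℝ} (hy : y ≠ 0) (hacc : Projectivization.mk ℝ y hy ∈ D.limitRoots) :
    D.B y y = 0 := by
  obtain ⟨c, hc0, hcL⟩ := h.exists_root
  have h1 := h.mem_catchment hc hirr (hcL s₀)
    (smul_ne_zero (hc0 s₀) (simpleRoot_ne_zero s₀))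
  have h2 : D.limitDirections _ = D.limitRoots := h1
  rw [← h2] at hacc
  exact h.light (hcL s₀) _ hy hacc

/-- There are two roots with `|B(α,β)| > 1`. -/
lemma IsCryst.exists_big (h : D.IsCryst L) (hc : D.IsCoord e s₀) :
    ∃ w ∈ D.W, ∃ s t, 1 < |D.B (w (simpleRoot s)) (simpleRoot t)| := by
  by_contra hcon
  push Not at hcon
  -- `v` is bounded by its products with the roots
  let Ψ : (S → ℝ) →ₗ[ℝ] (S → ℝ) := LinearMap.pi fun t => D.B (simpleRoot t)
  have hΨ : Function.Injective Ψ := by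
    rw [← LinearMap.ker_eq_bot, LinearMap.ker_eq_bot']
    intro v hv
    exact hc.nondeg fun s => congrFun hv s
  obtain ⟨C, hC⟩ : ∃ C : ℝ, ∀ v, (∀ t, |D.B v (simpleRoot t)| ≤ 1) → ‖v‖ ≤ C := by
    obtain ⟨K, hK, hanti⟩ := Ψ.exists_antilipschitzWith (LinearMap.ker_eq_bot.2 hΨ)
    refine ⟨K, fun v hv => ?_⟩
    have h1 := hanti.le_mul_dist v 0
    rw [dist_zero_right, map_zero, dist_zero_right] at h1
    have h2 : ‖Ψ v‖ ≤ 1 := by
      rw [pi_norm_le_iff_of_nonneg zero_le_one]
      intro t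
      show |D.B (simpleRoot t) v| ≤ 1
      rw [D.B_comm]
      exact hv t
    calc ‖v‖ ≤ K * ‖Ψ v‖ := h1
      _ ≤ K * 1 := mul_le_mul_of_nonneg_left h2 K.2
      _ = K := mul_one _
  -- `W` is finite
  obtain ⟨d, hd, hdL⟩ := h.exists_root
  have hfin : Finite D.W := by
    have h1 : (Set.pi Set.univ fun s : S => {v : S → ℝ | v ∈ L ∧ ‖v‖ ≤ |d s| * C}).Finite :=
      Set.Finite.pi fun s => h.fin _
    have h2 : Function.Injective (fun g : D.W => (⟨fun s => g.1 (d s • simpleRoot s), by
        intro s _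
        refine ⟨h.W_mem g.2 (hdL s), ?_⟩
        show ‖g.1 (d s • simpleRoot s)‖ ≤ _
        rw [map_smul, norm_smul, Real.norm_eq_abs]
        exact mul_le_mul_of_nonneg_left (hC _ fun t => hcon g.1 g.2 s t) (abs_nonneg _)⟩ :
        (Set.pi Set.univ fun s : S => {v : S → ℝ | v ∈ L ∧ ‖v‖ ≤ |d s| * C}))) := by
      intro g g' hgg
      have h3 := congrArg Subtype.val hgg
      apply Subtype.ext
      apply LinearEquiv.toLinearMap_injective
      apply LinearMap.pi_ext'
      intro s
      apply LinearMap.ext_ring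
      have h4 := congrFun h3 s
      simp only [map_smul] at h4
      have h5 := smul_right_injective (S → ℝ) (hd s) h4
      exact h5
    have := h1.to_subtype
    exact Finite.of_injective _ h2
  have := Fintype.ofFinite D.W
  -- the sum over the group of a time-like vector is fixed
  set x₀ : S → ℝ := e.symm (Pi.single s₀ 1) with hx₀
  have hx1 : e x₀ = Pi.single s₀ 1 := e.apply_symm_apply _
  have hx2 : D.B x₀ x₀ < 0 := by
    rw [hc.self, hx1, Pi.single_eq_same, Finset.sum_eq_zero]
    · norm_num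
    · intro s hs
      rw [Pi.single_eq_of_ne (Finset.ne_of_mem_erase hs)]
      norm_num
  have hx3 : 0 < e x₀ s₀ := by
    rw [hx1, Pi.single_eq_same]
    exact one_pos
  set z : S → ℝ := ∑ g : D.W, g.1 x₀ with hz
  have hz1 : ∀ s, D.simpleReflection s z = z := by
    intro s
    rw [hz, map_sum]
    exact Fintype.sum_equiv (Equiv.mulLeft (⟨D.simpleReflection s, simpleReflection_mem D s⟩ : D.W))
      _ _ (fun g => rfl)
  have hz2 : z = 0 := by
    apply hc.nondeg
    intro s
    have h1 := hz1 s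
    rw [D.refl_apply', sub_eq_self] at h1
    rcases smul_eq_zero.1 h1 with h2 | h2
    · linarith
    · exact absurd h2 (simpleRoot_ne_zero s)
  have hz3 : 0 < e z s₀ := by
    rw [hz, map_sum, Finset.sum_apply]
    exact Finset.sum_pos (fun g _ => hc.sheet_W g.2 hx2 hx3) ⟨1, Finset.mem_univ _⟩
  rw [hz2, map_zero] at hz3
  exact lt_irrefl _ hz3

/-- There is a vector outside of the catchment set. -/
lemma IsCryst.exists_bad (h : D.IsCryst L) (hc : D.IsCoord e s₀) (hirr : D.Irred)
    (h3 : 3 ≤ Fintype.card S) : ∃ p : ℙ ℝ (S → ℝ), p ∉ D.catchment := by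
  obtain ⟨w, hw, s, t, hb⟩ := h.exists_big hc
  set α : S → ℝ := w (simpleRoot s) with hα
  set β : S → ℝ := simpleRoot t with hβ
  set b : ℝ := D.B α β with hbd
  have hαα : D.B α α = 1 := by rw [hα, D.B_W hw, D.B_self_root]
  have hββ : D.B β β = 1 := D.B_self_root t
  have hb2 : 1 < b ^ 2 := by
    rw [← sq_abs]
    nlinarith [abs_nonneg b]
  -- a space-like vector orthogonal to `α`, `β`
  obtain ⟨y, hy0, hαy, hβy⟩ : ∃ y : S → ℝ, y ≠ 0 ∧ D.B α y = 0 ∧ D.B β y = 0 := by
    let f : (S → ℝ) →ₗ[ℝ] (Fin 2 → ℝ) := LinearMap.pi ![D.B α, D.B β]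
    have h1 : LinearMap.ker f ≠ ⊥ := by
      apply LinearMap.ker_ne_bot_of_finrank_lt
      rw [Module.finrank_fin_fun, Module.finrank_fintype_fun_eq_card]
      omega
    obtain ⟨y, hy, hy0⟩ := Submodule.exists_mem_ne_zero_of_ne_bot h1
    refine ⟨y, hy0, ?_, ?_⟩
    · exact congrFun (LinearMap.mem_ker.1 hy) 0
    · exact congrFun (LinearMap.mem_ker.1 hy) 1
  have hyy : 0 < D.B y y := by
    refine hc.space (p := α - b • β) ?_ ?_ hy0
    · simp only [map_sub, map_smul, LinearMap.sub_apply, LinearMap.smul_apply, smul_eq_mul]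
      rw [hαα, hββ, D.B_comm β α, ← hbd]
      nlinarith
    · simp only [map_sub, map_smul, LinearMap.sub_apply, LinearMap.smul_apply, smul_eq_mul]
      rw [hαy, hβy]
      ring
  -- the light-like eigenvector
  obtain ⟨r, hr1, hr2⟩ : ∃ r : ℝ, 1 < r ^ 2 ∧ 1 + 2 * b * r + r ^ 2 = 0 := by
    have h4 : 0 < b ^ 2 - 1 := by linarith
    have h5 := Real.sq_sqrt h4.le
    have h6 := Real.sqrt_pos.2 h4
    rcases le_or_gt 0 b with hb0 | hb0
    · refine ⟨-b - √(b ^ 2 - 1), ?_, ?_⟩
      · nlinarith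
      · nlinarith
    · refine ⟨-b + √(b ^ 2 - 1), ?_, ?_⟩
      · nlinarith
      · nlinarith
  have hr0 : r ≠ 0 := by
    rintro rfl
    norm_num at hr1
  set k : S → ℝ := α + r • β with hk
  set g : (S → ℝ) ≃ₗ[ℝ] (S → ℝ) := w * D.simpleReflection s * w⁻¹ * D.simpleReflection t with hg
  have hgW : g ∈ D.W := D.W.mul_mem (D.W.mul_mem (D.W.mul_mem hw (simpleReflection_mem D s))
    (D.W.inv_mem hw)) (simpleReflection_mem D t)
  have hg1 : ∀ v, g v = (v - (2 * D.B β v) • β) -
      (2 * D.B α (v - (2 * D.B β v) • β)) • α := by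
    intro v
    have h4 : g v = w (D.simpleReflection s (w⁻¹ (D.simpleReflection t v))) := rfl
    rw [h4, D.refl_apply' t v]
    set u := v - (2 * D.B (simpleRoot t) v) • simpleRoot t
    have h5 : w (w⁻¹ u) = u := w.apply_symm_apply u
    rw [D.refl_apply', map_sub, map_smul, h5]
    have h6 : D.B (simpleRoot s) (w⁻¹ u) = D.B α u := by
      rw [hα, ← D.B_W hw (simpleRoot s) (w⁻¹ u), h5]
    rw [h6]
  have hgy : g y = y := by
    rw [hg1, hβy, mul_zero, zero_smul, sub_zero, hαy, mul_zero, zero_smul, sub_zero]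
  have hgk : g k = (r ^ 2)⁻¹ • k := by
    have h4 : D.B β k = b + r := by
      rw [hk, map_add, map_smul, hββ, D.B_comm β α, ← hbd, smul_eq_mul, mul_one]
    have h5 : k - (2 * D.B β k) • β = α + r⁻¹ • β := by
      rw [h4, hk]
      have h6 : r - 2 * (b + r) = r⁻¹ := by
        field_simp
        linarith
      rw [← h6]
      module
    have h6 : D.B α (α + r⁻¹ • β) = 1 + r⁻¹ * b := by
      rw [map_add, map_smul, hαα, ← hbd, smul_eq_mul]
    rw [hg1, h5, h6]
    have h7 : 1 - 2 * (1 + r⁻¹ * b) = (r ^ 2)⁻¹ := by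
      field_simp
      linarith
    have h8 : (r ^ 2)⁻¹ * r = r⁻¹ := by
      field_simp
    have h9 : (r ^ 2)⁻¹ • k = (r ^ 2)⁻¹ • α + r⁻¹ • β := by
      rw [hk, smul_add, smul_smul, h8]
    rw [h9, ← h7]
    module
  have hk0 : k ≠ 0 := by
    intro h4
    have h5 : D.B α k = 1 + r * b := by
      rw [hk, map_add, map_smul, hαα, ← hbd, smul_eq_mul]
    rw [h4, map_zero] at h5
    nlinarith
  have hyk : D.B y k = 0 := by
    rw [hk, map_add, map_smul, D.B_comm y α, D.B_comm y β, hαy, hβy, smul_zero, add_zero]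
  have hgn : ∀ n : ℕ, (g ^ n) (y + k) = y + ((r ^ 2)⁻¹) ^ n • k := by
    intro n
    induction n with
    | zero => simp
    | succ n ih =>
      have h4 : (g ^ (n + 1)) (y + k) = g ((g ^ n) (y + k)) := by
        rw [pow_succ']
        rfl
      rw [h4, ih, map_add, map_smul, hgy, hgk, smul_smul, pow_succ ((r ^ 2)⁻¹) n]
  have hne : ∀ c : ℝ, y + c • k ≠ 0 := by
    intro c h4
    have h5 : D.B y (y + c • k) = D.B y y := by
      rw [map_add, map_smul, hyk, smul_zero, add_zero]
    rw [h4, map_zero] at h5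
    linarith
  have hyk0 : y + k ≠ 0 := by simpa using hne 1
  refine ⟨Projectivization.mk ℝ (y + k) hyk0, fun hmem => ?_⟩
  have h4 : Projectivization.mk ℝ y hy0 ∈
      D.limitDirections (Projectivization.mk ℝ (y + k) hyk0) := by
    refine accPt_of_seq (fun n => Projectivization.mk ℝ (y + ((r ^ 2)⁻¹) ^ n • k) (hne _))
      (fun n => ?_) (fun n => ?_) ?_
    · refine ⟨⟨g ^ n, D.W.pow_mem hgW n⟩, ?_⟩
      show g ^ n • Projectivization.mk ℝ (y + k) hyk0 = _
      rw [smul_mk]
      congr 1
      exact hgn n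
    · intro heq
      rw [Projectivization.mk_eq_mk_iff'] at heq
      obtain ⟨a, ha⟩ := heq
      have hrn : ((r ^ 2)⁻¹) ^ n ≠ 0 := pow_ne_zero _ (inv_ne_zero (pow_ne_zero _ hr0))
      have h5 : D.B y (a • y) = a * D.B y y := by rw [map_smul, smul_eq_mul]
      have h6 : D.B y (y + ((r ^ 2)⁻¹) ^ n • k) = D.B y y := by
        rw [map_add, map_smul, hyk, smul_zero, add_zero]
      rw [ha, h6] at h5
      have h7 : a = 1 := by
        have h8 : (a - 1) * D.B y y = 0 := by linarith
        rcases mul_eq_zero.1 h8 with h9 | h9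
        · linarith
        · exact absurd h9 hyy.ne'
      rw [h7, one_smul, left_eq_add] at ha
      exact (smul_ne_zero hrn hk0) ha
    · refine tendsto_mk (fun n => hne _) hy0 ?_
      have h5 : Tendsto (fun n : ℕ => ((r ^ 2)⁻¹) ^ n) atTop (𝓝 0) := by
        apply tendsto_pow_atTop_nhds_zero_of_lt_one (by positivity)
        exact inv_lt_one_of_one_lt₀ hr1
      have h6 := (h5.smul_const k).const_add y
      simpa using h6
  have h5 : D.limitDirections (Projectivization.mk ℝ (y + k) hyk0) = D.limitRoots := hmem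
  rw [h5] at h4
  have h6 := h.limitRoots_light hc hirr hy0 h4
  linarith

/-- The directions of the lattice vectors are dense. -/
lemma IsCryst.dense (h : D.IsCryst L) :
    Dense {p : ℙ ℝ (S → ℝ) | ∃ (x : S → ℝ) (hx : x ≠ 0), x ∈ L ∧
      p = Projectivization.mk ℝ x hx} := by
  obtain ⟨d, hd, hdL⟩ := h.exists_root
  rw [dense_iff_inter_open]
  rintro U hU ⟨p, hp⟩
  induction p using Projectivization.ind with
  | h v hv =>
    rw [isOpen_iff] at hU
    -- rational combinations of the basis `d_s α_s` are dense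
    have h1 : DenseRange (fun q : S → ℚ => fun s => (q s : ℝ) * d s) := by
      have h2 : DenseRange (fun q : S → ℚ => fun s => (q s : ℝ)) :=
        DenseRange.piMap fun _ => Rat.denseRange_cast
      have h3 : Function.Surjective (fun x : S → ℝ => fun s => x s * d s) := by
        intro x
        refine ⟨fun s => x s / d s, funext fun s => ?_⟩
        show x s / d s * d s = x s
        rw [div_mul_cancel₀ _ (hd s)]
      have h4 : Continuous (fun x : S → ℝ => fun s => x s * d s) := by fun_prop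
      exact h3.denseRange.comp h2 h4
    obtain ⟨x, ⟨hx0, hxU⟩, ⟨q, rfl⟩⟩ := h1.inter_open_nonempty _ hU ⟨v, hv, hp⟩
    -- a common denominator
    set N : ℕ := ∏ s, (q s).den with hN
    have hN0 : (N : ℝ) ≠ 0 := by
      rw [hN, Nat.cast_prod]
      exact Finset.prod_ne_zero_iff.2 fun s _ => Nat.cast_ne_zero.2 (q s).den_nz
    refine ⟨_, hxU, (N : ℝ) • (fun s => (q s : ℝ) * d s), smul_ne_zero hN0 hx0, ?_, ?_⟩
    · have h5 : (N : ℝ) • (fun s => (q s : ℝ) * d s) =
          ∑ s, ((q s).num * (∏ t ∈ Finset.univ.erase s, (q t).den : ℕ) : ℤ) •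
            (d s • simpleRoot s) := by
        funext s
        rw [Finset.sum_apply, Finset.sum_eq_single s]
        · have h6 : ((q s : ℚ) : ℝ) * ((q s).den : ℝ) = ((q s).num : ℝ) := by
            exact_mod_cast Rat.mul_den_eq_num (q s)
          have h7 : N = (q s).den * ∏ t ∈ Finset.univ.erase s, (q t).den :=
            (Finset.mul_prod_erase _ _ (Finset.mem_univ s)).symm
          have h8 : simpleRoot s s = 1 := by simp [simpleRoot]
          show (N : ℝ) * ((q s : ℝ) * d s) = _
          rw [Pi.smul_apply, Pi.smul_apply, h8, h7, smul_eq_mul, mul_one, zsmul_eq_mul]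
          push_cast
          rw [← h6]
          ring
        · intro t _ hts
          have h8 : simpleRoot t s = 0 := by simp [simpleRoot, Pi.single_eq_of_ne hts.symm]
          rw [Pi.smul_apply, Pi.smul_apply, h8, smul_zero, smul_zero]
        · intro hs
          exact absurd (Finset.mem_univ s) hs
      rw [h5]
      exact L.sum_mem fun s _ => L.zsmul_mem (hdL s) _
    · exact (mk_smul hx0 hN0).symm

/-- **Theorem.** The catchment set of an irreducible crystallographic Lorentzian system of rank at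
least `3` contains the directions of all the vectors of the lattice, is dense, and is not closed. -/
theorem IsCryst.main (h : D.IsCryst L) (hL : D.IsLorentzian) (hirr : D.Irred)
    (h3 : 3 ≤ Fintype.card S) :
    (∀ (x : S → ℝ) (hx0 : x ≠ 0), x ∈ L → Projectivization.mk ℝ x hx0 ∈ D.catchment) ∧
      Dense D.catchment ∧ ¬ IsClosed D.catchment := by
  obtain ⟨e, s₀, hc⟩ := hL
  have hdense : Dense D.catchment := by
    refine h.dense.mono ?_
    rintro p ⟨x, hx0, hx, rfl⟩
    exact h.mem_catchment hc hirr hx hx0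
  refine ⟨fun x hx0 hx => h.mem_catchment hc hirr hx hx0, hdense, fun hclosed => ?_⟩
  obtain ⟨p, hp⟩ := h.exists_bad hc hirr h3
  apply hp
  rw [← hclosed.closure_eq, hdense.closure_eq]
  exact Set.mem_univ p

end CoxeterDatum

end Pool.Agent.Lib.MP_241ca8_al
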