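import Mathlib

/-!
# MP_241ca8_al : definitions (Coxeter data, limit roots, catchment set)
-/

namespace Pool.Agent.Lib.MP_241ca8_al

open scoped LinearAlgebra.Projectivization Topology
open Filter

/-- The usual topology of the projective space `ℙ V` of a real vector space `V = (S → ℝ)`:
the quotient topology of `V ∖ {0}`. -/
noncomputable instance projTopology (S : Type) : TopologicalSpace (ℙ ℝ (S → ℝ)) :=
  TopologicalSpace.coinduced
    (fun v : {v : S → ℝ // v ≠ 0} => Projectivization.mk ℝ v.1 v.2) inferInstance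

/-- A finite Coxeter system `(W,S)` (given by its Coxeter matrix `M`, with the entry `0`
standing for `∞`) together with the Gram matrix `K` of a bilinear form `B` on `V = (S → ℝ)`
in the basis `Δ` of simple roots. -/
structure CoxeterDatum (S : Type) [Fintype S] [DecidableEq S] where
  /-- the Coxeter matrix -/
  M : CoxeterMatrix S
  /-- the Gram matrix of the form `B` in the basis of simple roots -/
  K : Matrix S S ℝ
  symm : ∀ s t, K s t = K t s
  diag : ∀ s, K s s = 1
  finite_label : ∀ s t, s ≠ t → M s t ≠ 0 → K s t = -Real.cos (Real.pi / M s t)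
  infinite_label : ∀ s t, s ≠ t → M s t = 0 → K s t ≤ -1

namespace CoxeterDatum

variable {S : Type} [Fintype S] [DecidableEq S] (D : CoxeterDatum S)

/-- The bilinear form `B` on `V = (S → ℝ)`. -/
noncomputable def B : LinearMap.BilinForm ℝ (S → ℝ) := Matrix.toBilin' D.K

/-- The simple root `α_s`. -/
def simpleRoot (s : S) : S → ℝ := Pi.single s 1

omit [Fintype S] in
lemma simpleRoot_ne_zero (s : S) : simpleRoot s ≠ 0 := by
  intro h
  have := congrFun h s
  simp [simpleRoot] at this

lemma B_simpleRoot (s t : S) : D.B (simpleRoot s) (simpleRoot t) = D.K s t := by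
  simp [B, simpleRoot, Matrix.toBilin'_single]

/-- The linear form `x ↦ 2 B(α_s,x)` takes the value `2` at `α_s`. -/
lemma two_smul_B (s : S) :
    ((2 : ℝ) • D.B (simpleRoot s)) (simpleRoot s) = 2 := by
  simp [B_simpleRoot, D.diag]

/-- The simple reflection `s(x) = x - 2 B(α_s,x) α_s`. -/
noncomputable def simpleReflection (s : S) : (S → ℝ) ≃ₗ[ℝ] (S → ℝ) :=
  Module.reflection (D.two_smul_B s)

/-- The image of the Coxeter group `W` in `GL(V)`: the subgroup generated by the simple
reflections. -/
noncomputable def W : Subgroup ((S → ℝ) ≃ₗ[ℝ] (S → ℝ)) :=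
  Subgroup.closure (Set.range D.simpleReflection)

/-- `B` has signature `(n-1,1)`. -/
def IsLorentzian : Prop :=
  ∃ (e : (S → ℝ) ≃ₗ[ℝ] (S → ℝ)) (s₀ : S), ∀ x,
    D.B x x = ∑ s, (if s = s₀ then -1 else 1) * (e x s) ^ 2

/-- The set of projective roots `{α̂ : α ∈ Φ}`, `Φ = W · Δ`. -/
noncomputable def projRoots : Set (ℙ ℝ (S → ℝ)) :=
  {p | ∃ w ∈ D.W, ∃ s : S, p = w • Projectivization.mk ℝ (simpleRoot s) (simpleRoot_ne_zero s)}

/-- The set `E_Φ` of limit roots: the accumulation points of the projective roots. -/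
noncomputable def limitRoots : Set (ℙ ℝ (S → ℝ)) := derivedSet D.projRoots

/-- The set `E_x` of accumulation points of the orbit `W · x̂`. -/
noncomputable def limitDirections (x : ℙ ℝ (S → ℝ)) : Set (ℙ ℝ (S → ℝ)) :=
  derivedSet (MulAction.orbit D.W x)

/-- The catchment set `F_Φ = {x̂ : E_x = E_Φ}`. -/
noncomputable def catchment : Set (ℙ ℝ (S → ℝ)) :=
  {x | D.limitDirections x = D.limitRoots}

end CoxeterDatum

end Pool.Agent.Lib.MP_241ca8_al
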