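import Pool.Agent.Lib.MP_241ca8_al.Proof

/-!
# MP_241ca8_al : Lorentzian forms and the action of `W`

Elementary facts: `W` preserves the form; light-like vectors which are orthogonal are proportional;
a vector orthogonal to a time-like vector is space-like; the reflections preserve the time-like
sheets.
-/

namespace Pool.Agent.Lib.MP_241ca8_al

open scoped LinearAlgebra.Projectivization Topology
open Filter

namespace CoxeterDatum

variable {S : Type} [Fintype S] [DecidableEq S] (D : CoxeterDatum S)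

lemma B_apply (x y : S → ℝ) : D.B x y = ∑ i, ∑ j, x i * D.K i j * y j := by
  rw [B, Matrix.toBilin'_apply]

lemma B_comm (x y : S → ℝ) : D.B x y = D.B y x := by
  rw [B_apply, B_apply, Finset.sum_comm]
  refine Finset.sum_congr rfl fun i _ => Finset.sum_congr rfl fun j _ => ?_
  rw [D.symm j i]
  ring

lemma B_root_left (s : S) (x : S → ℝ) : D.B (simpleRoot s) x = ∑ j, D.K s j * x j := by
  rw [B_apply]
  rw [Finset.sum_eq_single s]
  · refine Finset.sum_congr rfl fun j _ => ?_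
    simp [simpleRoot]
  · intro i _ hi
    refine Finset.sum_eq_zero fun j _ => ?_
    simp [simpleRoot, Pi.single_eq_of_ne hi]
  · intro h
    exact absurd (Finset.mem_univ s) h

lemma refl_apply' (s : S) (x : S → ℝ) :
    D.simpleReflection s x = x - (2 * D.B (simpleRoot s) x) • simpleRoot s := by
  simp [simpleReflection, Module.reflection_apply]

lemma B_self_root (s : S) : D.B (simpleRoot s) (simpleRoot s) = 1 := by
  rw [B_simpleRoot, D.diag]

lemma B_refl (s : S) (x y : S → ℝ) :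
    D.B (D.simpleReflection s x) (D.simpleReflection s y) = D.B x y := by
  rw [refl_apply', refl_apply']
  simp only [map_sub, map_smul, LinearMap.sub_apply, LinearMap.smul_apply, smul_eq_mul]
  rw [D.B_self_root, D.B_comm x (simpleRoot s)]
  ring

lemma refl_refl' (s : S) (x : S → ℝ) :
    D.simpleReflection s (D.simpleReflection s x) = x :=
  Module.involutive_reflection (D.two_smul_B s) x

/-- A property of the elements of `GL(V)` which is an equivalence holds for `W` if it holds for the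
simple reflections. -/
lemma W_iff (P : (S → ℝ) → Prop)
    (h : ∀ s x, P x → P (D.simpleReflection s x)) {w : (S → ℝ) ≃ₗ[ℝ] (S → ℝ)} (hw : w ∈ D.W)
    (x : S → ℝ) : P x ↔ P (w x) := by
  induction hw using Subgroup.closure_induction generalizing x with
  | mem w hw =>
    obtain ⟨s, rfl⟩ := hw
    refine ⟨h s x, fun h1 => ?_⟩
    have h2 := h s _ h1
    rwa [D.refl_refl'] at h2
  | one => exact Iff.rfl
  | mul a b _ _ iha ihb =>
    rw [ihb x, iha (b x)]
    rfl
  | inv a _ iha =>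
    rw [iha (a⁻¹ x)]
    have h1 : a (a⁻¹ x) = x := a.apply_symm_apply x
    rw [h1]

lemma B_W {w : (S → ℝ) ≃ₗ[ℝ] (S → ℝ)} (hw : w ∈ D.W) (x y : S → ℝ) :
    D.B (w x) (w y) = D.B x y := by
  induction hw using Subgroup.closure_induction generalizing x y with
  | mem w hw =>
    obtain ⟨s, rfl⟩ := hw
    exact D.B_refl s x y
  | one => rfl
  | mul a b _ _ iha ihb =>
    have h1 : D.B ((a * b) x) ((a * b) y) = D.B (a (b x)) (a (b y)) := rfl
    rw [h1, iha, ihb]
  | inv a _ iha =>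
    have h1 := iha (a⁻¹ x) (a⁻¹ y)
    have h2 : a (a⁻¹ x) = x := a.apply_symm_apply x
    have h3 : a (a⁻¹ y) = y := a.apply_symm_apply y
    rw [h2, h3] at h1
    exact h1.symm

/-! ### Lorentzian coordinates -/

/-- `e`, `s₀` are Lorentzian coordinates. -/
def IsCoord (e : (S → ℝ) ≃ₗ[ℝ] (S → ℝ)) (s₀ : S) : Prop :=
  ∀ x, D.B x x = ∑ s, (if s = s₀ then -1 else 1) * (e x s) ^ 2

variable {D}
variable {e : (S → ℝ) ≃ₗ[ℝ] (S → ℝ)} {s₀ : S}

lemma IsCoord.polar (h : D.IsCoord e s₀) (x y : S → ℝ) :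
    D.B x y = -(e x s₀ * e y s₀) + ∑ s ∈ Finset.univ.erase s₀, e x s * e y s := by
  have h1 := h (x + y)
  have h2 := h x
  have h3 := h y
  have h4 : D.B (x + y) (x + y) = D.B x x + 2 * D.B x y + D.B y y := by
    simp only [map_add, LinearMap.add_apply]
    rw [D.B_comm y x]
    ring
  have h5 : ∀ f : S → ℝ, ∑ s, (if s = s₀ then -1 else 1) * (f s) ^ 2 =
      -(f s₀) ^ 2 + ∑ s ∈ Finset.univ.erase s₀, (f s) ^ 2 := by
    intro f
    rw [← Finset.add_sum_erase _ _ (Finset.mem_univ s₀)]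
    congr 1
    · simp
    · refine Finset.sum_congr rfl fun s hs => ?_
      rw [if_neg (Finset.ne_of_mem_erase hs), one_mul]
  rw [h5] at h1 h2 h3
  have h6 : ∑ s ∈ Finset.univ.erase s₀, (e (x + y) s) ^ 2 =
      ∑ s ∈ Finset.univ.erase s₀, (e x s) ^ 2 + 2 * ∑ s ∈ Finset.univ.erase s₀, e x s * e y s +
        ∑ s ∈ Finset.univ.erase s₀, (e y s) ^ 2 := by
    rw [Finset.mul_sum, ← Finset.sum_add_distrib, ← Finset.sum_add_distrib]
    refine Finset.sum_congr rfl fun s _ => ?_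
    rw [map_add, Pi.add_apply]
    ring
  have h7 : (e (x + y) s₀) ^ 2 = (e x s₀) ^ 2 + 2 * (e x s₀ * e y s₀) + (e y s₀) ^ 2 := by
    rw [map_add, Pi.add_apply]
    ring
  rw [h6, h7] at h1
  linarith

lemma IsCoord.self (h : D.IsCoord e s₀) (x : S → ℝ) :
    D.B x x = -(e x s₀) ^ 2 + ∑ s ∈ Finset.univ.erase s₀, (e x s) ^ 2 := by
  rw [h.polar x x]
  congr 1
  · ring
  · exact Finset.sum_congr rfl fun s _ => by ring

/-- The form is nondegenerate. -/
lemma IsCoord.nondeg (h : D.IsCoord e s₀) {x : S → ℝ} (hx : ∀ s, D.B (simpleRoot s) x = 0) :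
    x = 0 := by
  have h1 : ∀ y, D.B y x = 0 := by
    intro y
    have h2 : y = ∑ s, y s • simpleRoot s := by
      funext t
      simp [simpleRoot, Finset.sum_apply, Pi.single_apply]
    rw [h2, map_sum, LinearMap.sum_apply]
    refine Finset.sum_eq_zero fun s _ => ?_
    rw [map_smul, LinearMap.smul_apply, hx s, smul_zero]
  have h3 : e x = 0 := by
    funext t
    have h4 := h1 (e.symm (Pi.single t 1))
    rw [h.polar, e.apply_symm_apply] at h4
    by_cases ht : t = s₀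
    · subst ht
      rw [Finset.sum_eq_zero] at h4
      · simpa using h4
      · intro s hs
        rw [Pi.single_eq_of_ne (Finset.ne_of_mem_erase hs), zero_mul]
    · rw [Finset.sum_eq_single_of_mem t (Finset.mem_erase.2 ⟨ht, Finset.mem_univ t⟩)] at h4
      · rw [Pi.single_eq_of_ne (Ne.symm ht)] at h4
        simpa using h4
      · intro s _ hs
        rw [Pi.single_eq_of_ne hs, zero_mul]
  exact (LinearEquiv.map_eq_zero_iff e).1 h3

/-- Orthogonal light-like vectors are proportional. -/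
lemma IsCoord.light (h : D.IsCoord e s₀) {x y : S → ℝ} (hx : D.B x x = 0) (hy : D.B y y = 0)
    (hxy : D.B x y = 0) (hx0 : x ≠ 0) : ∃ t : ℝ, y = t • x := by
  rw [h.self] at hx hy
  rw [h.polar] at hxy
  have ha : e x s₀ ≠ 0 := by
    intro h0
    rw [h0] at hx
    have h1 : ∑ s ∈ Finset.univ.erase s₀, (e x s) ^ 2 = 0 := by simpa using hx
    rw [Finset.sum_eq_zero_iff_of_nonneg fun s _ => sq_nonneg _] at h1
    apply hx0
    rw [← LinearEquiv.map_eq_zero_iff e]
    funext s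
    by_cases hs : s = s₀
    · rw [hs]
      exact h0
    · exact pow_eq_zero_iff (two_ne_zero) |>.1 (h1 s (Finset.mem_erase.2 ⟨hs, Finset.mem_univ s⟩))
  have h2 : ∑ s ∈ Finset.univ.erase s₀, (e x s * e y s₀ - e y s * e x s₀) ^ 2 = 0 := by
    have h3 : ∑ s ∈ Finset.univ.erase s₀, (e x s * e y s₀ - e y s * e x s₀) ^ 2 =
        (e y s₀) ^ 2 * ∑ s ∈ Finset.univ.erase s₀, (e x s) ^ 2 -
          2 * (e x s₀ * e y s₀) * ∑ s ∈ Finset.univ.erase s₀, e x s * e y s +
          (e x s₀) ^ 2 * ∑ s ∈ Finset.univ.erase s₀, (e y s) ^ 2 := by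
      rw [Finset.mul_sum, Finset.mul_sum, Finset.mul_sum, ← Finset.sum_sub_distrib,
        ← Finset.sum_add_distrib]
      exact Finset.sum_congr rfl fun s _ => by ring
    have h4 : ∑ s ∈ Finset.univ.erase s₀, (e x s) ^ 2 = (e x s₀) ^ 2 := by linarith
    have h5 : ∑ s ∈ Finset.univ.erase s₀, (e y s) ^ 2 = (e y s₀) ^ 2 := by linarith
    have h6 : ∑ s ∈ Finset.univ.erase s₀, e x s * e y s = e x s₀ * e y s₀ := by linarith
    rw [h3, h4, h5, h6]
    ring
  rw [Finset.sum_eq_zero_iff_of_nonneg fun s _ => sq_nonneg _] at h2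
  refine ⟨e y s₀ / e x s₀, ?_⟩
  apply e.injective
  rw [map_smul]
  funext s
  rw [Pi.smul_apply, smul_eq_mul]
  by_cases hs : s = s₀
  · rw [hs]
    field_simp
  · have h7 := pow_eq_zero_iff (two_ne_zero) |>.1
      (h2 s (Finset.mem_erase.2 ⟨hs, Finset.mem_univ s⟩))
    field_simp
    linarith

/-- Cauchy–Schwarz in the space-like coordinates. -/
lemma cs (e : (S → ℝ) ≃ₗ[ℝ] (S → ℝ)) (s₀ : S) (x y : S → ℝ) :
    (∑ s ∈ Finset.univ.erase s₀, e x s * e y s) ^ 2 ≤
      (∑ s ∈ Finset.univ.erase s₀, (e x s) ^ 2) * ∑ s ∈ Finset.univ.erase s₀, (e y s) ^ 2 :=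
  Finset.sum_mul_sq_le_sq_mul_sq _ _ _

/-- A nonzero vector orthogonal to a time-like vector is space-like. -/
lemma IsCoord.space (h : D.IsCoord e s₀) {p y : S → ℝ} (hp : D.B p p < 0) (hpy : D.B p y = 0)
    (hy : y ≠ 0) : 0 < D.B y y := by
  rw [h.self] at hp ⊢
  rw [h.polar] at hpy
  have hc := cs e s₀ p y
  set P := ∑ s ∈ Finset.univ.erase s₀, (e p s) ^ 2
  set Y := ∑ s ∈ Finset.univ.erase s₀, (e y s) ^ 2
  set M := ∑ s ∈ Finset.univ.erase s₀, e p s * e y s
  have hP : 0 ≤ P := Finset.sum_nonneg fun s _ => sq_nonneg _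
  have hY : 0 ≤ Y := Finset.sum_nonneg fun s _ => sq_nonneg _
  have h1 : M = e p s₀ * e y s₀ := by linarith
  rw [h1] at hc
  have ha : 0 < (e p s₀) ^ 2 := by linarith
  have hY0 : 0 < Y := by
    rcases hY.lt_or_eq with h2 | h2
    · exact h2
    · exfalso
      rw [← h2, mul_zero] at hc
      have h3 : (e p s₀ * e y s₀) ^ 2 = 0 := le_antisymm hc (sq_nonneg _)
      have h4 : e p s₀ * e y s₀ = 0 := pow_eq_zero_iff (two_ne_zero) |>.1 h3
      have h5 : e p s₀ ≠ 0 := by
        intro h6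
        rw [h6] at ha
        simp at ha
      have h6 : e y s₀ = 0 := by
        rcases mul_eq_zero.1 h4 with h7 | h7
        · exact absurd h7 h5
        · exact h7
      have h7 : ∑ s ∈ Finset.univ.erase s₀, (e y s) ^ 2 = 0 := h2.symm
      rw [Finset.sum_eq_zero_iff_of_nonneg fun s _ => sq_nonneg _] at h7
      apply hy
      rw [← LinearEquiv.map_eq_zero_iff e]
      funext s
      by_cases hs : s = s₀
      · rw [hs]
        exact h6
      · exact pow_eq_zero_iff (two_ne_zero) |>.1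
          (h7 s (Finset.mem_erase.2 ⟨hs, Finset.mem_univ s⟩))
  have h8 : (e p s₀) ^ 2 * (e y s₀) ^ 2 < (e p s₀) ^ 2 * Y := by
    calc (e p s₀) ^ 2 * (e y s₀) ^ 2 = (e p s₀ * e y s₀) ^ 2 := by ring
      _ ≤ P * Y := hc
      _ < (e p s₀) ^ 2 * Y := by
        apply mul_lt_mul_of_pos_right _ hY0
        linarith
  have h9 : (e y s₀) ^ 2 < Y := lt_of_mul_lt_mul_left h8 ha.le
  linarith

/-- Time-like vectors `x`, `y` with `B x y < 0` are in the same sheet. -/
lemma IsCoord.sheet (h : D.IsCoord e s₀) {x y : S → ℝ} (hx : D.B x x < 0) (hy : D.B y y < 0)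
    (hxy : D.B x y < 0) (hx0 : 0 < e x s₀) : 0 < e y s₀ := by
  rw [h.self] at hx hy
  rw [h.polar] at hxy
  have hc := cs e s₀ x y
  set P := ∑ s ∈ Finset.univ.erase s₀, (e x s) ^ 2
  set Y := ∑ s ∈ Finset.univ.erase s₀, (e y s) ^ 2
  set M := ∑ s ∈ Finset.univ.erase s₀, e x s * e y s
  have hP : 0 ≤ P := Finset.sum_nonneg fun s _ => sq_nonneg _
  have hY : 0 ≤ Y := Finset.sum_nonneg fun s _ => sq_nonneg _
  by_contra hcon
  push Not at hcon
  have h1 : e x s₀ * e y s₀ ≤ 0 := mul_nonpos_of_nonneg_of_nonpos hx0.le hcon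
  have h2 : (e x s₀ * e y s₀) ^ 2 < M ^ 2 := by
    nlinarith
  have h3 : P * Y < (e x s₀) ^ 2 * (e y s₀) ^ 2 := by
    have h4 : 0 < (e x s₀) ^ 2 := by positivity
    calc P * Y ≤ (e x s₀) ^ 2 * Y := mul_le_mul_of_nonneg_right (by linarith) hY
      _ < (e x s₀) ^ 2 * (e y s₀) ^ 2 := mul_lt_mul_of_pos_left (by linarith) h4
  have h5 : (e x s₀ * e y s₀) ^ 2 = (e x s₀) ^ 2 * (e y s₀) ^ 2 := by ring
  linarith

/-- `W` preserves the sheets. -/
lemma IsCoord.sheet_W (h : D.IsCoord e s₀) {w : (S → ℝ) ≃ₗ[ℝ] (S → ℝ)} (hw : w ∈ D.W) {x : S → ℝ}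
    (hx : D.B x x < 0) (hx0 : 0 < e x s₀) : 0 < e (w x) s₀ := by
  refine ((D.W_iff (fun x => D.B x x < 0 ∧ 0 < e x s₀) ?_ hw x).1 ⟨hx, hx0⟩).2
  rintro s x ⟨h1, h2⟩
  have h3 : D.B (D.simpleReflection s x) (D.simpleReflection s x) < 0 := by
    rw [D.B_refl]
    exact h1
  refine ⟨h3, h.sheet h1 h3 ?_ h2⟩
  rw [D.refl_apply', map_sub, map_smul, smul_eq_mul, D.B_comm x (simpleRoot s)]
  nlinarith [sq_nonneg (D.B (simpleRoot s) x)]

end CoxeterDatum

end Pool.Agent.Lib.MP_241ca8_al
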