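import Pool.Agent.Lib.MP_241ca8_al.Defs

/-!
# MP_241ca8_al : the catchment set of limit roots need not be closed

For the universal Coxeter group of rank `3` with `B(α_s,α_t) = -1` for `s ≠ t` (the
reflection group of an ideal triangle) all rational directions off the light cone lie in the
catchment set `F_Φ`, because their orbits are discrete and the cusps are accumulation points.
On the other hand the direction of `x = e + e₋`, where `e` is the space-like fixed vector and
`e₋` the contracted light-like eigenvector of a hyperbolic element `g` of `W`, does not lie in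
`F_Φ`, because `g^n x → e` is space-like.  Hence `F_Φ` is not closed.
-/

namespace Pool.Agent.Lib.MP_241ca8_al

open scoped LinearAlgebra.Projectivization Topology
open Filter

/-! ### Generalities on the topology of the projective space -/

section topology

variable {S : Type}

lemma continuous_mk :
    Continuous (fun v : {v : S → ℝ // v ≠ 0} => Projectivization.mk ℝ v.1 v.2) :=
  continuous_coinduced_rng

lemma isOpen_iff (U : Set (ℙ ℝ (S → ℝ))) :
    IsOpen U ↔ IsOpen {v : S → ℝ | ∃ hv : v ≠ 0, Projectivization.mk ℝ v hv ∈ U} := by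
  have h1 : IsOpen U ↔
      IsOpen ((fun v : {v : S → ℝ // v ≠ 0} => Projectivization.mk ℝ v.1 v.2) ⁻¹' U) :=
    isOpen_coinduced
  have h2 : IsOpen {v : S → ℝ | v ≠ 0} := isOpen_ne
  rw [h1, h2.isOpenEmbedding_subtypeVal.isOpen_iff_image_isOpen]
  have : (Subtype.val '' ((fun v : {v : S → ℝ // v ≠ 0} =>
      Projectivization.mk ℝ v.1 v.2) ⁻¹' U)) =
      {v : S → ℝ | ∃ hv : v ≠ 0, Projectivization.mk ℝ v hv ∈ U} := by
    ext v
    constructor
    · rintro ⟨⟨w, hw⟩, hwU, rfl⟩
      exact ⟨hw, hwU⟩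
    · rintro ⟨hv, hvU⟩
      exact ⟨⟨v, hv⟩, hvU, rfl⟩
  exact Iff.of_eq (congrArg IsOpen this)

/-- A convenient criterion for convergence in the projective space. -/
lemma tendsto_mk {u : ℕ → (S → ℝ)} {v : S → ℝ} (hu : ∀ n, u n ≠ 0) (hv : v ≠ 0)
    (h : Tendsto u atTop (𝓝 v)) :
    Tendsto (fun n => Projectivization.mk ℝ (u n) (hu n)) atTop
      (𝓝 (Projectivization.mk ℝ v hv)) := by
  have h1 : Tendsto (fun n => (⟨u n, hu n⟩ : {v : S → ℝ // v ≠ 0})) atTop (𝓝 ⟨v, hv⟩) := by
    rw [tendsto_subtype_rng]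
    exact h
  exact (continuous_mk.tendsto ⟨v, hv⟩).comp h1

lemma accPt_of_seq {X : Type*} [TopologicalSpace X] {A : Set X} {y : X} (u : ℕ → X)
    (hu : ∀ n, u n ∈ A) (hne : ∀ n, u n ≠ y) (h : Tendsto u atTop (𝓝 y)) :
    y ∈ derivedSet A := by
  rw [mem_derivedSet, accPt_iff_nhds]
  intro U hU
  obtain ⟨n, hn⟩ := (h.eventually_mem hU).exists
  exact ⟨u n, ⟨hn, hu n⟩, hne n⟩

instance t1Space [Fintype S] : T1Space (ℙ ℝ (S → ℝ)) := by
  refine ⟨fun p => ?_⟩
  induction p using Projectivization.ind with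
  | h v hv =>
    rw [← isOpen_compl_iff, isOpen_iff]
    have h1 : {w : S → ℝ | ∃ hw : w ≠ 0,
        Projectivization.mk ℝ w hw ∈ ({Projectivization.mk ℝ v hv}ᶜ : Set (ℙ ℝ (S → ℝ)))} =
        ⋃ (i : S) (j : S), {w : S → ℝ | w i * v j ≠ w j * v i} := by
      ext w
      simp only [Set.mem_compl_iff, Set.mem_singleton_iff, Set.mem_ofPred_eq, Set.mem_iUnion]
      constructor
      · rintro ⟨hw, h⟩
        by_contra hcon
        push Not at hcon
        apply h
        rw [Projectivization.mk_eq_mk_iff']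
        obtain ⟨j, hj⟩ : ∃ j, v j ≠ 0 := by
          by_contra hc
          push Not at hc
          exact hv (funext hc)
        refine ⟨w j / v j, ?_⟩
        funext i
        simp only [Pi.smul_apply, smul_eq_mul]
        have := hcon i j
        field_simp
        linarith
      · rintro ⟨i, j, hij⟩
        have hw : w ≠ 0 := by
          rintro rfl
          simp at hij
        refine ⟨hw, ?_⟩
        intro h
        rw [Projectivization.mk_eq_mk_iff'] at h
        obtain ⟨a, ha⟩ := h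
        apply hij
        rw [← ha]
        simp only [Pi.smul_apply, smul_eq_mul]
        ring
    rw [h1]
    refine isOpen_iUnion fun i => isOpen_iUnion fun j => ?_
    exact isOpen_ne_fun (by fun_prop) (by fun_prop)

/-- Linear automorphisms act on the projective space by homeomorphisms. -/
lemma continuous_smul' [Finite S] (w : (S → ℝ) ≃ₗ[ℝ] (S → ℝ)) :
    Continuous (fun p : ℙ ℝ (S → ℝ) => w • p) := by
  apply continuous_coinduced_dom.mpr
  have h1 : Continuous (fun v : S → ℝ => w v) := w.toLinearMap.continuous_of_finiteDimensional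
  have h2 : Continuous (fun v : {v : S → ℝ // v ≠ 0} =>
      (⟨w v.1, (LinearEquiv.map_ne_zero_iff w).mpr v.2⟩ : {v : S → ℝ // v ≠ 0})) :=
    (h1.comp continuous_subtype_val).subtype_mk _
  exact continuous_mk.comp h2

end topology

/-! ### Invariance and closedness of the sets `E_x` -/

section invariance

variable {S : Type} [Fintype S] [DecidableEq S] (D : CoxeterDatum S)

lemma isClosed_limitDirections (x : ℙ ℝ (S → ℝ)) : IsClosed (D.limitDirections x) :=
  isClosed_derivedSet _

lemma smul_mem_limitDirections {x p : ℙ ℝ (S → ℝ)} (hp : p ∈ D.limitDirections x)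
    {w : (S → ℝ) ≃ₗ[ℝ] (S → ℝ)} (hw : w ∈ D.W) : w • p ∈ D.limitDirections x := by
  have h1 := Continuous.image_derivedSet (A := MulAction.orbit D.W x)
    (continuous_smul' w) (MulAction.injective w)
  have h2 : (fun p : ℙ ℝ (S → ℝ) => w • p) '' (MulAction.orbit D.W x) ⊆
      MulAction.orbit D.W x := by
    rintro _ ⟨_, ⟨g, rfl⟩, rfl⟩
    refine ⟨⟨w, hw⟩ * g, ?_⟩
    exact mul_smul (⟨w, hw⟩ : D.W) g x
  exact derivedSet_mono _ _ h2 (h1 ⟨p, hp, rfl⟩)

lemma simpleReflection_mem (s : S) : D.simpleReflection s ∈ D.W :=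
  Subgroup.subset_closure ⟨s, rfl⟩

end invariance

/-! ### The example -/

section ExampleGroup

/-- The Coxeter datum of the universal Coxeter group of rank `3` (all labels `∞`), with
`B(α_s,α_t) = -1` for `s ≠ t` (the reflection group of an ideal triangle). -/
noncomputable def D₀ : CoxeterDatum (Fin 3) where
  M :=
    { M := Matrix.of fun s t => if s = t then 1 else 0
      isSymm := by
        ext s t
        simp [eq_comm]
      diagonal := by simp
      off_diagonal := by
        intro i j h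
        simp [h] }
  K := Matrix.of fun s t => if s = t then 1 else -1
  symm := by
    intro s t
    simp [eq_comm]
  diag := by simp
  finite_label := by
    intro s t h h'
    exfalso
    apply h'
    simp [h]
  infinite_label := by
    intro s t h h'
    simp [h]

/-- The quadratic form of `D₀`. -/
def q (x : Fin 3 → ℝ) : ℝ :=
  x 0 ^ 2 + x 1 ^ 2 + x 2 ^ 2 - 2 * x 0 * x 1 - 2 * x 0 * x 2 - 2 * x 1 * x 2

lemma B_self (x : Fin 3 → ℝ) : D₀.B x x = q x := by
  simp [CoxeterDatum.B, D₀, Matrix.toBilin'_apply, Fin.sum_univ_three, q]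
  ring

lemma refl_apply (s : Fin 3) (x : Fin 3 → ℝ) (t : Fin 3) :
    D₀.simpleReflection s x t =
      if t = s then 2 * (x 0 + x 1 + x 2) - 3 * x s else x t := by
  have h1 : D₀.B (CoxeterDatum.simpleRoot s) x = 2 * x s - (x 0 + x 1 + x 2) := by
    simp only [CoxeterDatum.B, D₀, Matrix.toBilin'_apply, Fin.sum_univ_three,
      CoxeterDatum.simpleRoot]
    fin_cases s <;> simp <;> ring
  rw [CoxeterDatum.simpleReflection, Module.reflection_apply]
  simp only [LinearMap.smul_apply, h1, smul_eq_mul]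
  by_cases hts : t = s
  · subst hts
    simp [CoxeterDatum.simpleRoot]
    ring
  · simp [CoxeterDatum.simpleRoot, hts]

lemma isLorentzian_D₀ : D₀.IsLorentzian := by
  let f : (Fin 3 → ℝ) →ₗ[ℝ] (Fin 3 → ℝ) :=
    { toFun := fun x => ![x 0 - x 1 - x 2, x 1 - x 2, x 1 + x 2]
      map_add' := by
        intro x y
        ext i
        fin_cases i <;> simp <;> ring
      map_smul' := by
        intro c x
        ext i
        fin_cases i <;> simp <;> ring }
  let g : (Fin 3 → ℝ) →ₗ[ℝ] (Fin 3 → ℝ) :=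
    { toFun := fun y => ![y 0 + y 2, (y 1 + y 2) / 2, (y 2 - y 1) / 2]
      map_add' := by
        intro x y
        ext i
        fin_cases i <;> simp <;> ring
      map_smul' := by
        intro c x
        ext i
        fin_cases i <;> simp <;> ring }
  refine ⟨LinearEquiv.ofLinearMap f g ?_ ?_, 2, ?_⟩
  · ext i j
    fin_cases i <;> fin_cases j <;> simp [f, g] <;> norm_num
  · ext i j
    fin_cases i <;> fin_cases j <;> simp [f, g]
  · intro x
    rw [B_self]
    simp [f, Fin.sum_univ_three, q]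
    ring

/-- `v` has integer coordinates. -/
def IsInt (v : Fin 3 → ℝ) : Prop := ∃ z : Fin 3 → ℤ, v = fun i => (z i : ℝ)

lemma refl_int (s : Fin 3) {v : Fin 3 → ℝ} (hv : IsInt v) : IsInt (D₀.simpleReflection s v) := by
  obtain ⟨z, rfl⟩ := hv
  refine ⟨fun t => if t = s then 2 * (z 0 + z 1 + z 2) - 3 * z s else z t, ?_⟩
  funext t
  rw [refl_apply]
  by_cases h : t = s <;> simp [h]

lemma refl_q (s : Fin 3) (v : Fin 3 → ℝ) : q (D₀.simpleReflection s v) = q v := by
  unfold q
  simp only [refl_apply]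
  fin_cases s <;> simp <;> ring

lemma refl_refl (s : Fin 3) (v : Fin 3 → ℝ) :
    D₀.simpleReflection s (D₀.simpleReflection s v) = v :=
  Module.involutive_reflection (D₀.two_smul_B s) v

lemma W_q {w : (Fin 3 → ℝ) ≃ₗ[ℝ] (Fin 3 → ℝ)} (hw : w ∈ D₀.W) (v : Fin 3 → ℝ) :
    q (w v) = q v := by
  induction hw using Subgroup.closure_induction generalizing v with
  | mem x hx =>
    obtain ⟨s, rfl⟩ := hx
    exact refl_q s v
  | one => rfl
  | mul x y _ _ hx hy =>
    rw [LinearEquiv.mul_apply, hx, hy]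
  | inv x _ hx =>
    have := hx (x⁻¹ v)
    rw [← this, ← LinearEquiv.mul_apply, mul_inv_cancel, LinearEquiv.coe_one, id]

lemma W_int {w : (Fin 3 → ℝ) ≃ₗ[ℝ] (Fin 3 → ℝ)} (hw : w ∈ D₀.W) (v : Fin 3 → ℝ) :
    IsInt (w v) ↔ IsInt v := by
  induction hw using Subgroup.closure_induction generalizing v with
  | mem x hx =>
    obtain ⟨s, rfl⟩ := hx
    refine ⟨fun h => ?_, refl_int s⟩
    have := refl_int s h
    rwa [refl_refl] at this
  | one => rfl
  | mul x y _ _ hx hy =>
    rw [LinearEquiv.mul_apply, hx, hy]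
  | inv x _ hx =>
    have := hx (x⁻¹ v)
    rw [← this, ← LinearEquiv.mul_apply, mul_inv_cancel, LinearEquiv.coe_one, id]

end ExampleGroup


/-! ### Analysis of the example -/

section ExampleGroup2

lemma q_smul (a : ℝ) (v : Fin 3 → ℝ) : q (a • v) = a ^ 2 * q v := by
  simp [q]
  ring

lemma q_ne_of_mk_eq {v w : Fin 3 → ℝ} {hv : v ≠ 0} {hw : w ≠ 0}
    (h : Projectivization.mk ℝ v hv = Projectivization.mk ℝ w hw) : q v = 0 ↔ q w = 0 := by
  rw [Projectivization.mk_eq_mk_iff'] at h
  obtain ⟨a, rfl⟩ := h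
  have ha : a ≠ 0 := by
    rintro rfl
    exact hv (by simp)
  rw [q_smul]
  simp [ha]

lemma mk_smul_eq {v : Fin 3 → ℝ} (hv : v ≠ 0) {a : ℝ} (hav : a • v ≠ 0) :
    Projectivization.mk ℝ (a • v) hav = Projectivization.mk ℝ v hv := by
  rw [Projectivization.mk_eq_mk_iff']
  exact ⟨a, rfl⟩

lemma finite_box (R : ℝ) : {v : Fin 3 → ℝ | IsInt v ∧ ∀ i, |v i| ≤ R}.Finite := by
  have h1 : (Set.Icc (fun _ => -⌈R⌉ : Fin 3 → ℤ) (fun _ => ⌈R⌉)).Finite := Set.finite_Icc _ _
  apply (h1.image (fun z : Fin 3 → ℤ => fun i => (z i : ℝ))).subset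
  rintro v ⟨⟨z, rfl⟩, hz⟩
  refine ⟨z, ⟨fun i => ?_, fun i => ?_⟩, rfl⟩
  · have h2 := (abs_le.mp (hz i)).1
    have h3 : -(⌈R⌉ : ℝ) ≤ z i := by linarith [Int.le_ceil R]
    exact_mod_cast h3
  · have h2 := (abs_le.mp (hz i)).2
    have h3 : (z i : ℝ) ≤ ⌈R⌉ := by linarith [Int.le_ceil R]
    exact_mod_cast h3

/-- the square of the euclidean norm -/
def nsq (v : Fin 3 → ℝ) : ℝ := v 0 ^ 2 + v 1 ^ 2 + v 2 ^ 2

lemma nsq_pos {v : Fin 3 → ℝ} (hv : v ≠ 0) : 0 < nsq v := by
  obtain ⟨j, hj⟩ : ∃ j, v j ≠ 0 := by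
    by_contra hc
    push Not at hc
    exact hv (funext hc)
  have h : 0 < v j ^ 2 := by positivity
  unfold nsq
  fin_cases j <;> simp at h ⊢ <;> nlinarith [sq_nonneg (v 0), sq_nonneg (v 1), sq_nonneg (v 2)]

/-- Accumulation points of a set of directions of integral vectors of bounded norm are
light-like. -/
lemma q_eq_zero_of_acc {A : Set (ℙ ℝ (Fin 3 → ℝ))} {C : ℝ}
    (hA : ∀ p ∈ A, ∃ (v : Fin 3 → ℝ) (hv : v ≠ 0),
      p = Projectivization.mk ℝ v hv ∧ IsInt v ∧ |q v| ≤ C)
    {y : Fin 3 → ℝ} (hy : y ≠ 0) (h : Projectivization.mk ℝ y hy ∈ derivedSet A) : q y = 0 := by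
  by_contra hq
  have hNy := nsq_pos hy
  set ε : ℝ := |q y| / (2 * nsq y) with hε
  have hqy : 0 < |q y| := abs_pos.mpr hq
  have hε0 : 0 < ε := by positivity
  set U : Set (ℙ ℝ (Fin 3 → ℝ)) :=
    {p | ∃ (v : Fin 3 → ℝ) (hv : v ≠ 0), p = Projectivization.mk ℝ v hv ∧ ε * nsq v < |q v|}
    with hU
  have hUchar : ∀ (v : Fin 3 → ℝ) (hv : v ≠ 0), Projectivization.mk ℝ v hv ∈ U →
      ε * nsq v < |q v| := by
    rintro v hv ⟨w, hw, hvw, h1⟩
    rw [Projectivization.mk_eq_mk_iff'] at hvw
    obtain ⟨a, rfl⟩ := hvw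
    have ha : a ≠ 0 := by
      rintro rfl
      exact hv (by simp)
    have h2 : nsq (a • w) = a ^ 2 * nsq w := by simp [nsq]; ring
    rw [q_smul, h2, abs_mul, abs_of_nonneg (sq_nonneg a)]
    have : 0 < a ^ 2 := by positivity
    nlinarith
  have hUopen : IsOpen U := by
    rw [isOpen_iff]
    have : {v : Fin 3 → ℝ | ∃ hv : v ≠ 0, Projectivization.mk ℝ v hv ∈ U} =
        {v : Fin 3 → ℝ | ε * nsq v < |q v|} := by
      ext v
      constructor
      · rintro ⟨hv, hvU⟩
        exact hUchar v hv hvU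
      · intro h1
        have hv : v ≠ 0 := by
          rintro rfl
          simp [nsq, q] at h1
        exact ⟨hv, v, hv, rfl, h1⟩
    rw [this]
    apply isOpen_lt
    · unfold nsq
      fun_prop
    · unfold q
      fun_prop
  have hyU : Projectivization.mk ℝ y hy ∈ U := by
    refine ⟨y, hy, rfl, ?_⟩
    have : ε * nsq y = |q y| / 2 := by
      rw [hε]
      field_simp
    rw [this]
    linarith
  have h1 : AccPt (Projectivization.mk ℝ y hy) (𝓟 (U ∩ A)) :=
    AccPt.nhds_inter h (hUopen.mem_nhds hyU)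
  have h2 : (U ∩ A).Infinite := Set.Infinite.of_accPt h1
  apply h2
  classical
  have h3 := (finite_box (C / ε + 1)).image
    (fun v : Fin 3 → ℝ => if hv : v ≠ 0 then Projectivization.mk ℝ v hv
      else Projectivization.mk ℝ y hy)
  apply h3.subset
  rintro p ⟨hpU, hpA⟩
  obtain ⟨v, hv, rfl, hint, hC⟩ := hA p hpA
  have h4 := hUchar v hv hpU
  refine ⟨v, ⟨hint, fun i => ?_⟩, by simp [hv]⟩
  have h5 : nsq v < C / ε := by
    rw [lt_div_iff₀ hε0]
    linarith
  have h6 : v i ^ 2 ≤ nsq v := by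
    unfold nsq
    fin_cases i <;> simp <;> nlinarith [sq_nonneg (v 0), sq_nonneg (v 1), sq_nonneg (v 2)]
  have h7 : |v i| ≤ v i ^ 2 + 1 := by
    rw [abs_le]
    constructor <;> nlinarith [sq_nonneg (v i - 1), sq_nonneg (v i + 1)]
  linarith

/-- powers of the parabolic elements `s_i s_j` -/
lemma parabolic (i j k : Fin 3) (hij : i ≠ j) (hik : i ≠ k) (hjk : j ≠ k) (v : Fin 3 → ℝ)
    (n : ℕ) :
    ((D₀.simpleReflection i * D₀.simpleReflection j) ^ n) v =
      fun t => if t = i then v i + n * (2 * v i - 2 * v j + 2 * v k) + 4 * n ^ 2 * v k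
        else if t = j then v j + n * (2 * v i - 2 * v j - 2 * v k) + 4 * n ^ 2 * v k
        else v k := by
  induction n with
  | zero =>
    funext t
    fin_cases i <;> fin_cases j <;> first | (exact absurd rfl hij) | skip
    all_goals fin_cases k <;> first | (exact absurd rfl hik) | (exact absurd rfl hjk) | skip
    all_goals fin_cases t <;> simp
  | succ n ih =>
    rw [pow_succ', LinearEquiv.mul_apply, ih, LinearEquiv.mul_apply]
    funext t
    rw [refl_apply]
    simp only [refl_apply]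
    push_cast
    fin_cases i <;> fin_cases j <;> first | (exact absurd rfl hij) | skip
    all_goals fin_cases k <;> first | (exact absurd rfl hik) | (exact absurd rfl hjk) | skip
    all_goals fin_cases t <;> simp <;> ring

/-- The three cusps. -/
def cusp (k : Fin 3) : Fin 3 → ℝ := fun t => if t = k then 0 else 1

lemma cusp_ne_zero (k : Fin 3) : cusp k ≠ 0 := by
  intro h
  have := congrFun h (k + 1)
  simp [cusp] at this

lemma q_cusp (k : Fin 3) : q (cusp k) = 0 := by
  fin_cases k <;> simp [q, cusp] <;> norm_num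

lemma mem_orbit {w : (Fin 3 → ℝ) ≃ₗ[ℝ] (Fin 3 → ℝ)} (hw : w ∈ D₀.W) {v : Fin 3 → ℝ}
    (hv : v ≠ 0) (hwv : w v ≠ 0) :
    Projectivization.mk ℝ (w v) hwv ∈ MulAction.orbit D₀.W (Projectivization.mk ℝ v hv) :=
  ⟨⟨w, hw⟩, rfl⟩

/-- The cusps lie in `E_x` for every `x` which is not light-like. -/
lemma cusp_mem (k : Fin 3) {v : Fin 3 → ℝ} (hv : v ≠ 0) (hq : q v ≠ 0) :
    Projectivization.mk ℝ (cusp k) (cusp_ne_zero k) ∈
      D₀.limitDirections (Projectivization.mk ℝ v hv) := by
  obtain ⟨i, j, hij, hik, hjk⟩ : ∃ i j : Fin 3, i ≠ j ∧ i ≠ k ∧ j ≠ k := by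
    fin_cases k
    · exact ⟨1, 2, by decide, by decide, by decide⟩
    · exact ⟨0, 2, by decide, by decide, by decide⟩
    · exact ⟨0, 1, by decide, by decide, by decide⟩
  set P := D₀.simpleReflection i * D₀.simpleReflection j with hP
  have hPW : P ∈ D₀.W := D₀.W.mul_mem (simpleReflection_mem _ _) (simpleReflection_mem _ _)
  -- it suffices to find a curve `g` with `g (1/m)` proportional to `P ^ m v`
  suffices H : ∃ (g : ℝ → Fin 3 → ℝ) (c : ℝ → ℝ), Continuous g ∧ g 0 = cusp k ∧
      ∀ m : ℕ, c (1 / ((m : ℝ) + 1)) ≠ 0 ∧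
        g (1 / ((m : ℝ) + 1)) = c (1 / ((m : ℝ) + 1)) • (P ^ (m + 1)) v by
    obtain ⟨g, c, hg, hg0, hgm⟩ := H
    have hne : ∀ m : ℕ, g (1 / ((m : ℝ) + 1)) ≠ 0 := by
      intro m
      rw [(hgm m).2]
      exact smul_ne_zero (hgm m).1 ((LinearEquiv.map_ne_zero_iff _).mpr hv)
    have htend : Tendsto (fun m : ℕ => g (1 / ((m : ℝ) + 1))) atTop (𝓝 (cusp k)) := by
      rw [← hg0]
      exact (hg.tendsto 0).comp tendsto_one_div_add_atTop_nhds_zero_nat
    refine accPt_of_seq (fun m : ℕ => Projectivization.mk ℝ _ (hne m)) ?_ ?_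
      (tendsto_mk hne (cusp_ne_zero k) htend)
    · intro m
      have h1 : ∀ (u : Fin 3 → ℝ) (hu : u ≠ 0),
          u = c (1 / ((m : ℝ) + 1)) • (P ^ (m + 1)) v →
          Projectivization.mk ℝ u hu ∈ MulAction.orbit D₀.W (Projectivization.mk ℝ v hv) := by
        rintro u hu rfl
        rw [mk_smul_eq (v := (P ^ (m + 1)) v) ((LinearEquiv.map_ne_zero_iff _).mpr hv)]
        exact mem_orbit (D₀.W.pow_mem hPW _) hv _
      exact h1 _ _ (hgm m).2
    · intro m h
      have h1 := (q_ne_of_mk_eq h).mpr (q_cusp k)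
      rw [(hgm m).2, q_smul, W_q (D₀.W.pow_mem hPW _)] at h1
      rcases mul_eq_zero.mp h1 with h2 | h2
      · exact (hgm m).1 (pow_eq_zero_iff two_ne_zero |>.mp h2)
      · exact hq h2
  by_cases hk : v k = 0
  · have hvij : v i - v j ≠ 0 := by
      intro h
      apply hq
      have hvi : v i = v j := by linarith
      unfold q
      fin_cases i <;> fin_cases j <;> first | (exact absurd rfl hij) | skip
      all_goals fin_cases k <;> first | (exact absurd rfl hik) | (exact absurd rfl hjk) | skip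
      all_goals
        simp at hvi hk
        simp [hvi, hk]
      all_goals ring
    refine ⟨fun s t => if t = i then 1 + s * (v i / (2 * (v i - v j)))
      else if t = j then 1 + s * (v j / (2 * (v i - v j))) else 0,
      fun s => s / (2 * (v i - v j)), ?_, ?_, ?_⟩
    · apply continuous_pi
      intro t
      split_ifs <;> fun_prop
    · funext t
      unfold cusp
      fin_cases i <;> fin_cases j <;> first | (exact absurd rfl hij) | skip
      all_goals fin_cases k <;> first | (exact absurd rfl hik) | (exact absurd rfl hjk) | skip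
      all_goals fin_cases t <;> simp
    · intro m
      have hm : ((m : ℝ) + 1) ≠ 0 := by positivity
      refine ⟨by positivity, ?_⟩
      rw [parabolic i j k hij hik hjk]
      funext t
      simp only [Pi.smul_apply, smul_eq_mul, hk]
      push_cast
      split_ifs
      · field_simp
        ring
      · field_simp
        ring
      · simp
  · refine ⟨fun s t => if t = i then 1 + s * ((2 * v i - 2 * v j + 2 * v k) / (4 * v k)) +
        s ^ 2 * (v i / (4 * v k))
      else if t = j then 1 + s * ((2 * v i - 2 * v j - 2 * v k) / (4 * v k)) +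
        s ^ 2 * (v j / (4 * v k)) else s ^ 2 / 4,
      fun s => s ^ 2 / (4 * v k), ?_, ?_, ?_⟩
    · apply continuous_pi
      intro t
      split_ifs <;> fun_prop
    · funext t
      unfold cusp
      fin_cases i <;> fin_cases j <;> first | (exact absurd rfl hij) | skip
      all_goals fin_cases k <;> first | (exact absurd rfl hik) | (exact absurd rfl hjk) | skip
      all_goals fin_cases t <;> simp
    · intro m
      have hm : ((m : ℝ) + 1) ≠ 0 := by positivity
      refine ⟨by positivity, ?_⟩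
      rw [parabolic i j k hij hik hjk]
      funext t
      simp only [Pi.smul_apply, smul_eq_mul]
      push_cast
      split_ifs
      · field_simp
        ring
      · field_simp
        ring
      · field_simp

/-- `v` is nonzero and its direction lies in `E`. -/
def InE (E : Set (ℙ ℝ (Fin 3 → ℝ))) (v : Fin 3 → ℝ) : Prop :=
  ∃ hv : v ≠ 0, Projectivization.mk ℝ v hv ∈ E

lemma InE.smul {E : Set (ℙ ℝ (Fin 3 → ℝ))} {v : Fin 3 → ℝ} (h : InE E v) {a : ℝ}
    (ha : a ≠ 0) : InE E (a • v) := by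
  obtain ⟨hv, h⟩ := h
  refine ⟨smul_ne_zero ha hv, ?_⟩
  rwa [mk_smul_eq hv]

lemma InE.of_smul {E : Set (ℙ ℝ (Fin 3 → ℝ))} {v : Fin 3 → ℝ} {a : ℝ} (ha : a ≠ 0)
    (h : InE E (a • v)) : InE E v := by
  have := h.smul (inv_ne_zero ha)
  rwa [smul_smul, inv_mul_cancel₀ ha, one_smul] at this

lemma InE.refl {E : Set (ℙ ℝ (Fin 3 → ℝ))} (hinv : ∀ w ∈ D₀.W, ∀ p ∈ E, w • p ∈ E)
    {v : Fin 3 → ℝ} (h : InE E v) (s : Fin 3) : InE E (D₀.simpleReflection s v) := by
  obtain ⟨hv, h⟩ := h
  exact ⟨(LinearEquiv.map_ne_zero_iff _).mpr hv, hinv _ (simpleReflection_mem _ s) _ h⟩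

/-- Euclid's algorithm: all rational light-like directions lie in the orbits of the cusps. -/
lemma descent {E : Set (ℙ ℝ (Fin 3 → ℝ))} (hinv : ∀ w ∈ D₀.W, ∀ p ∈ E, w • p ∈ E)
    (hc : ∀ k, InE E (cusp k)) (n : ℕ) :
    ∀ a b c : ℤ, a + b + c = 0 → a.natAbs + b.natAbs + c.natAbs ≤ n → (a ≠ 0 ∨ b ≠ 0) →
      InE E ![(a : ℝ) ^ 2, (b : ℝ) ^ 2, (c : ℝ) ^ 2] := by
  induction n with
  | zero =>
    intro a b c h1 h2 h3
    omega
  | succ n ih =>
    intro a b c h1 h2 h3
    by_cases ha : a = 0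
    · have hb : (b : ℝ) ^ 2 ≠ 0 := by
        have : b ≠ 0 := by omega
        positivity
      have hcb : (c : ℝ) = -b := by
        have : c = -b := by omega
        rw [this]; push_cast; ring
      convert (hc 0).smul hb using 1
      funext t
      fin_cases t <;> simp [cusp, ha, hcb]
    by_cases hb : b = 0
    · have ha' : (a : ℝ) ^ 2 ≠ 0 := by positivity
      have hca : (c : ℝ) = -a := by
        have : c = -a := by omega
        rw [this]; push_cast; ring
      convert (hc 1).smul ha' using 1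
      funext t
      fin_cases t <;> simp [cusp, hb, hca]
    by_cases hcc : c = 0
    · have ha' : (a : ℝ) ^ 2 ≠ 0 := by positivity
      have hca : (b : ℝ) = -a := by
        have : b = -a := by omega
        rw [this]; push_cast; ring
      convert (hc 2).smul ha' using 1
      funext t
      fin_cases t <;> simp [cusp, hcc, hca]
    have hsum : (c : ℝ) = -(a + b) := by
      have : c = -(a + b) := by omega
      rw [this]; push_cast; ring
    have hcases : c.natAbs = a.natAbs + b.natAbs ∨ b.natAbs = a.natAbs + c.natAbs ∨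
        a.natAbs = b.natAbs + c.natAbs := by omega
    rcases hcases with h | h | h
    · have h4 := (ih a (-b) (b - a) (by omega) (by omega) (by omega)).refl hinv 2
      convert h4 using 1
      funext t
      rw [refl_apply]
      fin_cases t <;> simp [hsum]
      all_goals ring
    · have h4 := (ih a (c - a) (-c) (by omega) (by omega) (by omega)).refl hinv 1
      convert h4 using 1
      funext t
      rw [refl_apply]
      fin_cases t <;> simp [hsum]
      all_goals ring
    · have h4 := (ih (c - b) b (-c) (by omega) (by omega) (by omega)).refl hinv 0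
      convert h4 using 1
      funext t
      rw [refl_apply]
      fin_cases t <;> simp [hsum]
      all_goals ring

/-- A closed invariant set containing the cusps contains all light-like directions. -/
lemma contains_conic {E : Set (ℙ ℝ (Fin 3 → ℝ))} (hcl : IsClosed E)
    (hinv : ∀ w ∈ D₀.W, ∀ p ∈ E, w • p ∈ E) (hc : ∀ k, InE E (cusp k))
    {v : Fin 3 → ℝ} (hv : v ≠ 0) (hq : q v = 0) : InE E v := by
  have step1 : ∀ α β : ℝ, (α ≠ 0 ∨ β ≠ 0) → InE E ![α ^ 2, β ^ 2, (α + β) ^ 2] := by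
    intro α β hαβ
    by_contra hcon
    have hne : (![α ^ 2, β ^ 2, (α + β) ^ 2] : Fin 3 → ℝ) ≠ 0 := by
      intro h
      have h0 := congrFun h 0
      have h1 := congrFun h 1
      simp at h0 h1
      rcases hαβ with h | h
      · exact h h0
      · exact h h1
    set O : Set (Fin 3 → ℝ) := {v | ∃ hv : v ≠ 0, Projectivization.mk ℝ v hv ∈ Eᶜ} with hO
    have hOopen : IsOpen O := (isOpen_iff _).mp hcl.isOpen_compl
    have hmem : (![α ^ 2, β ^ 2, (α + β) ^ 2] : Fin 3 → ℝ) ∈ O := by
      refine ⟨hne, ?_⟩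
      intro h
      exact hcon ⟨hne, h⟩
    have hf : Continuous (fun p : ℝ × ℝ => (![p.1 ^ 2, p.2 ^ 2, (p.1 + p.2) ^ 2] : Fin 3 → ℝ)) := by
      apply continuous_pi
      intro t
      fin_cases t <;> simp <;> fun_prop
    have hdense : DenseRange (Prod.map (Rat.cast : ℚ → ℝ) (Rat.cast : ℚ → ℝ)) :=
      Rat.denseRange_cast.prodMap Rat.denseRange_cast
    obtain ⟨⟨r, s⟩, hrs⟩ := hdense.exists_mem_open (hOopen.preimage hf) ⟨(α, β), hmem⟩
    obtain ⟨hne', hnot⟩ := hrs
    apply hnot
    have hrs0 : r ≠ 0 ∨ s ≠ 0 := by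
      by_contra hc'
      push Not at hc'
      apply hne'
      funext t
      fin_cases t <;> simp [hc'.1, hc'.2]
    have hrd : (r.den : ℝ) ≠ 0 := by exact_mod_cast r.den_nz
    have hsd : (s.den : ℝ) ≠ 0 := by exact_mod_cast s.den_nz
    have hr : (r : ℝ) = r.num / r.den := by exact_mod_cast (Rat.num_div_den r).symm
    have hs : (s : ℝ) = s.num / s.den := by exact_mod_cast (Rat.num_div_den s).symm
    have h5 := descent hinv hc _ (r.num * s.den) (s.num * r.den)
      (-(r.num * s.den + s.num * r.den)) (by ring) le_rfl (by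
        rcases hrs0 with h | h
        · left
          exact mul_ne_zero (Rat.num_ne_zero.mpr h) (by exact_mod_cast s.den_nz)
        · right
          exact mul_ne_zero (Rat.num_ne_zero.mpr h) (by exact_mod_cast r.den_nz))
    have h6 : InE E (((r.den : ℝ) * s.den) ^ 2 •
        (![(r : ℝ) ^ 2, (s : ℝ) ^ 2, ((r : ℝ) + s) ^ 2] : Fin 3 → ℝ)) := by
      convert h5 using 1
      funext t
      fin_cases t
      · simp [hr]
        field_simp
      · simp [hs]
        field_simp
      · simp [hr, hs]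
        field_simp
        ring
    exact (h6.of_smul (by positivity)).2
  have step2 : ∀ v : Fin 3 → ℝ, v ≠ 0 → q v = 0 → 0 ≤ v 0 → 0 ≤ v 1 → InE E v := by
    intro v hv hq h0 h1
    have e0 := Real.sq_sqrt h0
    have e1 := Real.sq_sqrt h1
    have h2 : (v 2 - v 0 - v 1 - 2 * √(v 0) * √(v 1)) * (v 2 - v 0 - v 1 + 2 * √(v 0) * √(v 1)) = 0 := by
      have : (v 2 - v 0 - v 1 - 2 * √(v 0) * √(v 1)) * (v 2 - v 0 - v 1 + 2 * √(v 0) * √(v 1))
          = (v 2 - v 0 - v 1) ^ 2 - 4 * √(v 0) ^ 2 * √(v 1) ^ 2 := by ring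
      rw [this, e0, e1]
      unfold q at hq
      linarith
    have hne : ∀ β : ℝ, β ^ 2 = v 1 → v 2 = (√(v 0) + β) ^ 2 → InE E v := by
      intro β hβ hv2
      have h3 : √(v 0) ≠ 0 ∨ β ≠ 0 := by
        by_contra hcon
        push Not at hcon
        apply hv
        have g0 : v 0 = 0 := by rw [← e0, hcon.1]; simp
        have g1 : v 1 = 0 := by rw [← hβ, hcon.2]; simp
        have g2 : v 2 = 0 := by rw [hv2, hcon.1, hcon.2]; simp
        funext t
        fin_cases t
        · exact g0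
        · exact g1
        · exact g2
      convert step1 _ _ h3 using 1
      funext t
      fin_cases t
      · exact e0.symm
      · exact hβ.symm
      · exact hv2
    rcases mul_eq_zero.mp h2 with h3 | h3
    · exact hne (√(v 1)) e1 (by nlinarith)
    · exact hne (-√(v 1)) (by rw [neg_sq, e1]) (by nlinarith)
  have h01 : 0 ≤ v 0 * v 1 := by
    unfold q at hq
    nlinarith [sq_nonneg (v 0 + v 1 - v 2)]
  rcases mul_nonneg_iff.mp h01 with h | h
  · exact step2 v hv hq h.1 h.2
  · have h3 := step2 ((-1 : ℝ) • v) (smul_ne_zero (by norm_num) hv) (by rw [q_smul, hq]; ring)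
      (by simp; exact h.1) (by simp; exact h.2)
    exact h3.of_smul (by norm_num)

/-- The set of light-like directions. -/
def conic : Set (ℙ ℝ (Fin 3 → ℝ)) :=
  {p | ∃ (v : Fin 3 → ℝ) (hv : v ≠ 0), p = Projectivization.mk ℝ v hv ∧ q v = 0}

lemma limitDirections_eq_conic {v : Fin 3 → ℝ} (hv : v ≠ 0) (hint : IsInt v) (hq : q v ≠ 0) :
    D₀.limitDirections (Projectivization.mk ℝ v hv) = conic := by
  apply Set.Subset.antisymm
  · intro p hp
    induction p using Projectivization.ind with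
    | h y hy =>
      refine ⟨y, hy, rfl, ?_⟩
      refine q_eq_zero_of_acc (C := |q v|) ?_ hy hp
      rintro _ ⟨⟨w, hw⟩, rfl⟩
      exact ⟨w v, (LinearEquiv.map_ne_zero_iff _).mpr hv, rfl, (W_int hw v).mpr hint,
        by rw [W_q hw]⟩
  · rintro _ ⟨y, hy, rfl, hqy⟩
    exact (contains_conic (isClosed_limitDirections _ _)
      (fun w hw p hp => smul_mem_limitDirections D₀ hp hw)
      (fun k => ⟨cusp_ne_zero k, cusp_mem k hv hq⟩) hy hqy).2

lemma isInt_simpleRoot (s : Fin 3) : IsInt (CoxeterDatum.simpleRoot s) := by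
  refine ⟨Pi.single s 1, ?_⟩
  funext t
  by_cases h : t = s <;> simp [CoxeterDatum.simpleRoot, h]

lemma q_simpleRoot (s : Fin 3) : q (CoxeterDatum.simpleRoot s) = 1 := by
  rw [← B_self, CoxeterDatum.B_simpleRoot, D₀.diag]

lemma limitRoots_eq_conic : D₀.limitRoots = conic := by
  apply Set.Subset.antisymm
  · intro p hp
    induction p using Projectivization.ind with
    | h y hy =>
      refine ⟨y, hy, rfl, ?_⟩
      refine q_eq_zero_of_acc (C := 1) ?_ hy hp
      rintro _ ⟨w, hw, s, rfl⟩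
      refine ⟨w (CoxeterDatum.simpleRoot s),
        (LinearEquiv.map_ne_zero_iff _).mpr (CoxeterDatum.simpleRoot_ne_zero s), rfl,
        (W_int hw _).mpr (isInt_simpleRoot s), ?_⟩
      rw [W_q hw, q_simpleRoot]
      simp
  · rw [← limitDirections_eq_conic (CoxeterDatum.simpleRoot_ne_zero 0) (isInt_simpleRoot 0)
      (by rw [q_simpleRoot]; norm_num)]
    apply derivedSet_mono
    rintro _ ⟨⟨w, hw⟩, rfl⟩
    exact ⟨w, hw, 0, rfl⟩

lemma vec_ne_zero (r : ℝ) : (![4 - 2 * r, 4, 0] : Fin 3 → ℝ) ≠ 0 := by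
  intro h
  have := congrFun h 1
  simp at this

/-- Rational points of a certain line lie in the catchment set. -/
lemma rational_mem (r : ℚ) (hr : r ≠ 0) :
    Projectivization.mk ℝ ![4 - 2 * (r : ℝ), 4, 0] (vec_ne_zero r) ∈ D₀.catchment := by
  show D₀.limitDirections _ = D₀.limitRoots
  rw [limitRoots_eq_conic]
  have hrd : (r.den : ℝ) ≠ 0 := by exact_mod_cast r.den_nz
  rw [← mk_smul_eq (vec_ne_zero r) (a := r.den) (smul_ne_zero hrd (vec_ne_zero r))]
  have hr' : (r : ℝ) = r.num / r.den := by exact_mod_cast (Rat.num_div_den r).symm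
  apply limitDirections_eq_conic
  · refine ⟨![4 * r.den - 2 * r.num, 4 * r.den, 0], ?_⟩
    funext t
    fin_cases t
    · simp [hr']
      field_simp
    · simp
      ring
    · simp
  · rw [q_smul]
    have h1 : q ![4 - 2 * (r : ℝ), 4, 0] = 4 * (r : ℝ) ^ 2 := by
      simp [q]
      ring
    rw [h1]
    have : (r : ℝ) ≠ 0 := by exact_mod_cast hr
    positivity

/-- The hyperbolic element. -/
noncomputable def hyp : (Fin 3 → ℝ) ≃ₗ[ℝ] (Fin 3 → ℝ) :=
  D₀.simpleReflection 0 * D₀.simpleReflection 1 * D₀.simpleReflection 2 * D₀.simpleReflection 1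

lemma hyp_mem : hyp ∈ D₀.W :=
  D₀.W.mul_mem (D₀.W.mul_mem (D₀.W.mul_mem (simpleReflection_mem _ _)
    (simpleReflection_mem _ _)) (simpleReflection_mem _ _)) (simpleReflection_mem _ _)

lemma hyp_apply (v : Fin 3 → ℝ) : hyp v = D₀.simpleReflection 0 (D₀.simpleReflection 1
    (D₀.simpleReflection 2 (D₀.simpleReflection 1 v))) := rfl

lemma hyp_e : hyp ![1, 2, -1] = ![1, 2, -1] := by
  rw [hyp_apply]
  funext t
  simp only [refl_apply]
  fin_cases t <;> simp <;> norm_num

lemma hyp_e' : hyp ![3 - 2 * √2, 2, 1] = (17 - 12 * √2) • ![3 - 2 * √2, 2, 1] := by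
  have h2 : √2 ^ 2 = 2 := Real.sq_sqrt (by norm_num)
  rw [hyp_apply]
  funext t
  simp only [refl_apply]
  fin_cases t <;> simp
  · linear_combination (-24 : ℝ) * h2
  · ring
  · ring

lemma hyp_pow (n : ℕ) : (hyp ^ n) ![4 - 2 * √2, 4, 0] =
    ![1, 2, -1] + (17 - 12 * √2) ^ n • ![3 - 2 * √2, 2, 1] := by
  induction n with
  | zero =>
    funext t
    fin_cases t <;> simp <;> norm_num
    ring
  | succ n ih =>
    rw [pow_succ', LinearEquiv.mul_apply, ih, map_add, map_smul, hyp_e, hyp_e', smul_smul,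
      pow_succ]

lemma bad_not_mem :
    Projectivization.mk ℝ ![4 - 2 * √2, 4, 0] (vec_ne_zero √2) ∉ D₀.catchment := by
  intro h
  have h : D₀.limitDirections (Projectivization.mk ℝ ![4 - 2 * √2, 4, 0] (vec_ne_zero √2)) =
    D₀.limitRoots := h
  rw [limitRoots_eq_conic] at h
  have h2 : √2 ^ 2 = 2 := Real.sq_sqrt (by norm_num)
  have hμ0 : 0 < 17 - 12 * √2 := by nlinarith [Real.sqrt_nonneg 2]
  have hμ1 : 17 - 12 * √2 < 1 := by nlinarith [Real.sqrt_nonneg 2]
  have hene : (![1, 2, -1] : Fin 3 → ℝ) ≠ 0 := by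
    intro h
    have := congrFun h 0
    simp at this
  have hmem : Projectivization.mk ℝ ![1, 2, -1] hene ∈
      D₀.limitDirections (Projectivization.mk ℝ ![4 - 2 * √2, 4, 0] (vec_ne_zero √2)) := by
    have hne : ∀ n : ℕ, (hyp ^ n) ![4 - 2 * √2, 4, 0] ≠ 0 := fun n =>
      (LinearEquiv.map_ne_zero_iff _).mpr (vec_ne_zero _)
    have htend : Tendsto (fun n : ℕ => (hyp ^ n) ![4 - 2 * √2, 4, 0]) atTop
        (𝓝 ![1, 2, -1]) := by
      have h3 : Tendsto (fun n : ℕ => ![1, 2, -1] +
          (17 - 12 * √2) ^ n • (![3 - 2 * √2, 2, 1] : Fin 3 → ℝ)) atTop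
          (𝓝 (![1, 2, -1] + (0 : ℝ) • (![3 - 2 * √2, 2, 1] : Fin 3 → ℝ))) :=
        ((tendsto_pow_atTop_nhds_zero_of_lt_one hμ0.le hμ1).smul_const _).const_add _
      simpa [hyp_pow] using h3
    refine accPt_of_seq (fun n : ℕ => Projectivization.mk ℝ _ (hne n)) ?_ ?_
      (tendsto_mk hne hene htend)
    · intro n
      exact mem_orbit (D₀.W.pow_mem hyp_mem n) _ _
    · intro n h
      rw [Projectivization.mk_eq_mk_iff'] at h
      obtain ⟨a, ha⟩ := h
      rw [hyp_pow] at ha
      have h1 := congrFun ha 1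
      have h2 := congrFun ha 2
      simp at h1 h2
      have : (17 - 12 * √2) ^ n = 0 := by linarith
      exact (pow_pos hμ0 n).ne' this
  rw [h] at hmem
  obtain ⟨v, hv, hev, hqv⟩ := hmem
  have h3 := (q_ne_of_mk_eq hev).mpr hqv
  simp [q] at h3
  norm_num at h3

theorem main : ∃ D : CoxeterDatum (Fin 3),
    (∀ s t, s ≠ t → D.M s t = 0 ∧ D.K s t = -1) ∧ D.IsLorentzian ∧ ¬ IsClosed D.catchment := by
  refine ⟨D₀, ?_, isLorentzian_D₀, ?_⟩
  · intro s t h
    simp [D₀, h]
  · intro hcl
    set O : Set (Fin 3 → ℝ) :=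
      {v | ∃ hv : v ≠ 0, Projectivization.mk ℝ v hv ∈ (D₀.catchment)ᶜ} with hO
    have hOopen : IsOpen O := (isOpen_iff _).mp hcl.isOpen_compl
    have hf : Continuous (fun r : ℝ => (![4 - 2 * r, 4, 0] : Fin 3 → ℝ)) := by
      apply continuous_pi
      intro t
      fin_cases t <;> simp <;> fun_prop
    have hopen : IsOpen ((fun r : ℝ => (![4 - 2 * r, 4, 0] : Fin 3 → ℝ)) ⁻¹' O ∩ Set.Ioi 0) :=
      (hOopen.preimage hf).inter isOpen_Ioi
    have hmem : √2 ∈ (fun r : ℝ => (![4 - 2 * r, 4, 0] : Fin 3 → ℝ)) ⁻¹' O ∩ Set.Ioi 0 :=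
      ⟨⟨vec_ne_zero _, bad_not_mem⟩, by simp⟩
    obtain ⟨r, ⟨_, hr⟩, hr0⟩ := Rat.denseRange_cast.exists_mem_open hopen ⟨√2, hmem⟩
    apply hr
    apply rational_mem
    rintro rfl
    simp at hr0

end ExampleGroup2

end Pool.Agent.Lib.MP_241ca8_al
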