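import Pool.Agent.Lib.MP_241ca8_al.Cryst3

/-!
# MP_241ca8_al : the universal Coxeter systems of rank `n ≥ 3`, and discrete subgroups
-/

namespace Pool.Agent.Lib.MP_241ca8_al

open scoped LinearAlgebra.Projectivization Topology
open Filter

namespace CoxeterDatum

variable {S : Type} [Fintype S] [DecidableEq S] {D : CoxeterDatum S}

/-- A discrete subgroup which spans `V` and is preserved by `W`. -/
lemma isCryst_of_discrete (L : AddSubgroup (S → ℝ)) [DiscreteTopology L]
    (hspan : Submodule.span ℝ (L : Set (S → ℝ)) = ⊤)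
    (hinv : ∀ w ∈ D.W, ∀ x ∈ L, w x ∈ L) : D.IsCryst L where
  fin := by
    intro R
    have hclosed : IsClosed (L : Set (S → ℝ)) := AddSubgroup.isClosed_of_discrete
    have h1 : ((L : Set (S → ℝ)) ∩ Metric.closedBall 0 R).Finite := by
      have h2 : IsCompact ((L : Set (S → ℝ)) ∩ Metric.closedBall 0 R) :=
        (isCompact_closedBall 0 R).inter_left hclosed
      refine h2.finite ?_
      have h3 : IsDiscrete (L : Set (S → ℝ)) := ⟨inferInstanceAs (DiscreteTopology L)⟩
      exact h3.mono Set.inter_subset_left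
    refine h1.subset ?_
    rintro x ⟨hx, hR⟩
    exact ⟨hx, by simpa using hR⟩
  span := hspan
  refl := fun s x hx => hinv _ (simpleReflection_mem D s) x hx

/-- The universal Coxeter system of rank `n`, `B(α_s,α_t) = -1` for `s ≠ t`. -/
noncomputable def univ (n : ℕ) : CoxeterDatum (Fin n) where
  M :=
    { M := Matrix.of fun s t => if s = t then 1 else 0
      isSymm := by
        ext s t
        simp [eq_comm]
      diagonal := by simp
      off_diagonal := by
        intro i j h
        simp [h] }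
  K := Matrix.of fun s t => if s = t then 1 else -1
  symm := by
    intro s t
    simp [eq_comm]
  diag := by simp
  finite_label := by
    intro s t h h'
    exfalso
    apply h'
    simp [h]
  infinite_label := by
    intro s t h h'
    simp [h]

lemma univ_B (n : ℕ) (x : Fin n → ℝ) :
    (univ n).B x x = 2 * ∑ i, (x i) ^ 2 - (∑ i, x i) ^ 2 := by
  rw [B_apply]
  have h1 : ∀ i j, x i * (univ n).K i j * x j = (if i = j then 2 * (x i) ^ 2 else 0) - x i * x j := by
    intro i j
    by_cases hij : i = j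
    · subst hij
      simp [univ]
      ring
    · simp [univ, hij]
  simp only [h1, Finset.sum_sub_distrib, Finset.sum_ite_eq, Finset.mem_univ, if_true]
  rw [← Finset.mul_sum, sq (∑ i, x i), Finset.sum_mul_sum]

lemma univ_lorentzian (m : ℕ) (hm : 2 ≤ m) : (univ (m + 1)).IsLorentzian := by
  set n : ℝ := (m : ℝ) + 1 with hn
  have hm' : (2 : ℝ) ≤ m := by exact_mod_cast hm
  have hn0 : 0 < n := by linarith
  set r : ℝ := √n with hr
  have hr2 : r ^ 2 = n := Real.sq_sqrt hn0.le
  have hr0 : 0 < r := Real.sqrt_pos.2 hn0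
  set a : ℝ := √((n - 2) / n) with ha
  have ha2 : a ^ 2 = (n - 2) / n := Real.sq_sqrt (by
    apply div_nonneg _ hn0.le
    linarith)
  have ha0 : a ≠ 0 := by
    have : 0 < a := Real.sqrt_pos.2 (div_pos (by linarith) hn0)
    exact this.ne'
  -- the coordinates
  let mean : (Fin (m + 1) → ℝ) →ₗ[ℝ] ℝ := n⁻¹ • ∑ i, LinearMap.proj i
  have hmean : ∀ x, mean x = n⁻¹ * ∑ i, x i := by
    intro x
    simp [mean, LinearMap.sum_apply]
  let f : (Fin (m + 1) → ℝ) →ₗ[ℝ] (Fin (m + 1) → ℝ) :=
    LinearMap.pi fun i => if i = 0 then (a * n) • mean else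
      √2 • ((LinearMap.proj i - mean) - (r + 1)⁻¹ • (LinearMap.proj 0 - mean))
  have hf0 : ∀ x, f x 0 = a * ∑ i, x i := by
    intro x
    show (if (0 : Fin (m + 1)) = 0 then (a * n) • mean else
      √2 • ((LinearMap.proj 0 - mean) - (r + 1)⁻¹ • (LinearMap.proj 0 - mean))) x = _
    rw [if_pos rfl, LinearMap.smul_apply, hmean, smul_eq_mul]
    field_simp
  have hfi : ∀ x i, i ≠ 0 → f x i = √2 * ((x i - mean x) - (r + 1)⁻¹ * (x 0 - mean x)) := by
    intro x i hi
    show (if i = 0 then (a * n) • mean else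
      √2 • ((LinearMap.proj i - mean) - (r + 1)⁻¹ • (LinearMap.proj 0 - mean))) x = _
    rw [if_neg hi]
    rfl
  have hsum : ∀ x : Fin (m + 1) → ℝ, ∑ i, x i = n * mean x := by
    intro x
    rw [hmean]
    field_simp
  -- the sum over the coordinates different from `0`
  have hsucc : ∀ x : Fin (m + 1) → ℝ, ∑ i : Fin m, (x i.succ - mean x) = -(x 0 - mean x) := by
    intro x
    have h1 := hsum x
    rw [Fin.sum_univ_succ] at h1
    rw [Finset.sum_sub_distrib, Finset.sum_const, Finset.card_univ, Fintype.card_fin, nsmul_eq_mul]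
    have h2 : n * mean x = m * mean x + mean x := by rw [hn]; ring
    linarith
  have hinj : Function.Injective f := by
    rw [← LinearMap.ker_eq_bot, LinearMap.ker_eq_bot']
    intro x hx
    have h0 : mean x = 0 := by
      have h1 := congrFun hx 0
      rw [hf0] at h1
      have h2 : ∑ i, x i = 0 := by
        rcases mul_eq_zero.1 h1 with h3 | h3
        · exact absurd h3 ha0
        · exact h3
      rw [hmean, h2, mul_zero]
    have hi : ∀ i : Fin m, x i.succ = (r + 1)⁻¹ * x 0 := by
      intro i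
      have h1 := congrFun hx i.succ
      rw [hfi _ _ (Fin.succ_ne_zero i), h0] at h1
      have h2 : (√2 : ℝ) ≠ 0 := by positivity
      rcases mul_eq_zero.1 h1 with h3 | h3
      · exact absurd h3 h2
      · simpa [sub_eq_zero] using h3
    have hx0 : x 0 = 0 := by
      have h1 := hsucc x
      rw [h0] at h1
      simp only [sub_zero, hi, Finset.sum_const, Finset.card_univ, Fintype.card_fin,
        nsmul_eq_mul] at h1
      have h2 : (m : ℝ) = (r - 1) * (r + 1) := by
        have h3 : (m : ℝ) = n - 1 := by rw [hn]; ring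
        rw [h3, ← hr2]
        ring
      rw [h2] at h1
      have h3 : (r - 1) * (r + 1) * ((r + 1)⁻¹ * x 0) = (r - 1) * x 0 := by
        have : r + 1 ≠ 0 := by positivity
        field_simp
      rw [h3] at h1
      have h4 : r * x 0 = 0 := by linarith
      rcases mul_eq_zero.1 h4 with h5 | h5
      · exact absurd h5 hr0.ne'
      · exact h5
    funext i
    refine Fin.cases ?_ (fun j => ?_) i
    · exact hx0
    · rw [hi, hx0, mul_zero]
      rfl
  refine ⟨LinearEquiv.ofInjectiveEndo f hinj, 0, fun x => ?_⟩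
  have h1 : ∀ i, (LinearEquiv.ofInjectiveEndo f hinj) x i = f x i := fun i => rfl
  simp only [h1]
  rw [univ_B, Fin.sum_univ_succ (f := fun s => (if s = 0 then -1 else 1) * (f x s) ^ 2), hf0]
  simp only [Fin.succ_ne_zero, if_false, if_true, one_mul]
  set μ := mean x with hμ
  set y : Fin (m + 1) → ℝ := fun i => x i - μ with hy
  have h2 : ∑ i : Fin m, (f x i.succ) ^ 2 = 2 * (∑ i : Fin m, (y i.succ) ^ 2 + (y 0) ^ 2) := by
    have h3 : ∀ i : Fin m, (f x i.succ) ^ 2 = 2 * (y i.succ) ^ 2 +
        (-(4 * (r + 1)⁻¹ * y 0)) * y i.succ + 2 * ((r + 1)⁻¹) ^ 2 * (y 0) ^ 2 := by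
      intro i
      rw [hfi _ _ (Fin.succ_ne_zero i)]
      have h4 : (√2 : ℝ) ^ 2 = 2 := Real.sq_sqrt (by norm_num)
      rw [mul_pow, h4]
      simp only [hy]
      ring
    simp only [h3]
    rw [Finset.sum_add_distrib, Finset.sum_add_distrib, ← Finset.mul_sum, ← Finset.mul_sum,
      Finset.sum_const, Finset.card_univ, Fintype.card_fin, nsmul_eq_mul]
    have h4 : ∑ i : Fin m, y i.succ = -(y 0) := hsucc x
    rw [h4]
    have h5 : (m : ℝ) = (r - 1) * (r + 1) := by
      have h6 : (m : ℝ) = n - 1 := by rw [hn]; ring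
      rw [h6, ← hr2]
      ring
    rw [h5]
    have h7 : r + 1 ≠ 0 := by positivity
    field_simp
    ring
  rw [h2]
  have h3 : ∑ i, (x i) ^ 2 = ∑ i : Fin m, (y i.succ) ^ 2 + (y 0) ^ 2 + n * μ ^ 2 := by
    have h4 : ∑ i, (y i) ^ 2 = ∑ i : Fin m, (y i.succ) ^ 2 + (y 0) ^ 2 := by
      rw [Fin.sum_univ_succ]
      ring
    rw [← h4]
    have h5 : ∀ i, (x i) ^ 2 = (y i) ^ 2 + 2 * μ * x i - μ ^ 2 := by
      intro i
      simp only [hy]
      ring
    simp only [h5]
    rw [Finset.sum_sub_distrib, Finset.sum_add_distrib, ← Finset.mul_sum, hsum x,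
      Finset.sum_const, Finset.card_univ, Fintype.card_fin, nsmul_eq_mul]
    push_cast
    rw [← hn]
    ring
  rw [h3, hsum x, ← hμ, mul_pow a, ha2]
  field_simp
  ring

lemma univ_cryst (n : ℕ) : ∃ L : AddSubgroup (Fin n → ℝ), (univ n).IsCryst L := by
  let L : AddSubgroup (Fin n → ℝ) :=
    { carrier := {x | ∀ s, ∃ m : ℤ, x s = m}
      add_mem' := by
        intro x y hx hy s
        obtain ⟨a, ha⟩ := hx s
        obtain ⟨b, hb⟩ := hy s
        exact ⟨a + b, by rw [Pi.add_apply, ha, hb]; push_cast; ring⟩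
      zero_mem' := fun s => ⟨0, by simp⟩
      neg_mem' := by
        intro x hx s
        obtain ⟨a, ha⟩ := hx s
        exact ⟨-a, by rw [Pi.neg_apply, ha]; push_cast; ring⟩ }
  refine ⟨L, ?_, ?_, ?_⟩
  · intro R
    set N : Fin n → ℤ := fun _ => ⌈R⌉ with hN
    refine ((Set.finite_Icc (-N) N).image (fun m : Fin n → ℤ => fun s => (m s : ℝ))).subset ?_
    rintro x ⟨hx, hR⟩
    choose m hm using hx
    have h2 : ∀ s, |m s| ≤ N s := by
      intro s
      have h3 : |x s| ≤ R := le_trans (norm_le_pi_norm x s) hR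
      rw [hm s] at h3
      have h6 : ((|m s| : ℤ) : ℝ) ≤ ((N s : ℤ) : ℝ) := by
        rw [Int.cast_abs]
        exact le_trans h3 (Int.le_ceil _)
      exact_mod_cast h6
    exact ⟨m, ⟨fun s => (abs_le.1 (h2 s)).1, fun s => (abs_le.1 (h2 s)).2⟩,
      funext fun s => (hm s).symm⟩
  · rw [eq_top_iff]
    intro x _
    have h3 : x = ∑ s, x s • simpleRoot s := by
      funext t
      simp [simpleRoot, Finset.sum_apply, Pi.single_apply]
    rw [h3]
    refine Submodule.sum_mem _ fun s _ => Submodule.smul_mem _ _ (Submodule.subset_span ?_)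
    intro t
    by_cases hts : t = s
    · subst hts
      exact ⟨1, by simp [simpleRoot]⟩
    · exact ⟨0, by simp [simpleRoot, Pi.single_eq_of_ne hts]⟩
  · intro s x hx t
    choose m hm using hx
    rw [refl_apply', B_root_left]
    refine ⟨m t - (2 * ∑ j, (if s = j then 1 else -1) * m j) * (if t = s then 1 else 0), ?_⟩
    rw [Pi.sub_apply, Pi.smul_apply, hm t, smul_eq_mul]
    push_cast
    congr 1
    have h1 : ∀ j, (univ n).K s j * x j = ((if s = j then 1 else -1 : ℤ) : ℝ) * m j := by
      intro j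
      rw [hm j]
      simp [univ]
    simp only [h1]
    by_cases hts : t = s
    · subst hts
      simp [simpleRoot]
    · simp [simpleRoot, hts]

lemma univ_irred (n : ℕ) : (univ n).Irred := by
  intro s t
  apply Relation.ReflTransGen.single
  by_cases hst : s = t
  · simp [univ, hst]
  · simp [univ, hst]

/-- The universal Coxeter systems of rank `n ≥ 3`. -/
theorem univ_main (n : ℕ) (hn : 3 ≤ n) : (univ n).IsLorentzian ∧ Dense (univ n).catchment ∧
    ¬ IsClosed (univ n).catchment := by
  obtain ⟨m, rfl⟩ : ∃ m, n = m + 1 := ⟨n - 1, by omega⟩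
  have h1 := univ_lorentzian m (by omega)
  obtain ⟨L, hL⟩ := univ_cryst (m + 1)
  have h2 := hL.main h1 (univ_irred _) (by simpa using hn)
  exact ⟨h1, h2.2⟩

end CoxeterDatum

end Pool.Agent.Lib.MP_241ca8_al
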